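import Pool.Agent.Y116.MT.Mot

/-!
# Invertible objects and duals of shifts
-/

set_option autoImplicit false
set_option linter.unusedSectionVars false
set_option linter.unusedSimpArgs false
set_option backward.isDefEq.respectTransparency false
set_option backward.defeqAttrib.useBackward true

open CategoryTheory Limits MonoidalCategory Pretriangulated Triangulated

namespace Pool.Agent.U735.IL

open Pool.Agent.Y116.MT

universe v u w

section Mon

variable {C : Type u} [Category.{v} C] [MonoidalCategory C] [SymmetricCategory C]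

/-- The tensor product with an invertible object, as an equivalence. -/
noncomputable def tensorEquiv {U V : C} (e : U ⊗ V ≅ 𝟙_ C) : C ≌ C :=
  CategoryTheory.Equivalence.mk (tensorRight U) (tensorRight V)
    ((rightUnitorNatIso C).symm ≪≫ (tensoringRight C).mapIso e.symm ≪≫ tensorRightTensor U V)
    ((tensorRightTensor V U).symm ≪≫ (tensoringRight C).mapIso (β_ V U ≪≫ e) ≪≫
      rightUnitorNatIso C)

lemma tensor_full {U V : C} (e : U ⊗ V ≅ 𝟙_ C) : (tensorRight U).Full :=
  inferInstanceAs (tensorEquiv e).functor.Full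

lemma tensor_faithful {U V : C} (e : U ⊗ V ≅ 𝟙_ C) : (tensorRight U).Faithful :=
  inferInstanceAs (tensorEquiv e).functor.Faithful

variable [RightRigidCategory C]

/-- The dual of an invertible object is its inverse. -/
noncomputable def dualOfInv {U V : C} (e : U ⊗ V ≅ 𝟙_ C) : Uᘁ ≅ V :=
  (λ_ _).symm ≪≫ ((tensorRightAdjunction U Uᘁ).rightAdjointUniq
    (tensorEquiv e).toAdjunction).app (𝟙_ C) ≪≫ λ_ _

/-- The dual of an isomorphic object. -/
noncomputable def dualIso {X Y : C} (e : X ≅ Y) : Xᘁ ≅ Yᘁ :=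
  rightDualIso (X := X) HasRightDual.exact (exactPairingCongrLeft e)

end Mon

section Shift

variable {C : Type u} [Category.{v} C] [Preadditive C] [HasZeroObject C] [HasShift C ℤ]
  [∀ n : ℤ, (shiftFunctor C n).Additive] [Pretriangulated C] [MonoidalCategory C]
  [SymmetricCategory C] [TensorTriangulated C] [RightRigidCategory C]

/-- The shift as a tensor product. -/
noncomputable def shiftIso (P : C) (a : ℤ) : P⟦a⟧ ≅ P ⊗ (𝟙_ C)⟦a⟧ :=
  (shiftFunctor C a).mapIso (ρ_ P).symm ≪≫ (rShift P (𝟙_ C) a).symm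

/-- The shifts of the unit are invertible. -/
noncomputable def unitShift (a : ℤ) : (𝟙_ C)⟦a⟧ ⊗ (𝟙_ C)⟦-a⟧ ≅ 𝟙_ C :=
  shiftTensorIso (𝟙_ C) (𝟙_ C) a ≪≫ λ_ _

/-- The dual of a shift. -/
noncomputable def dualShift (P : C) (a : ℤ) : ((P⟦a⟧)ᘁ : C)⟦a⟧ ≅ (Pᘁ : C) :=
  let U := (𝟙_ C)⟦a⟧
  shiftIso ((P⟦a⟧)ᘁ : C) a ≪≫
    whiskerRightIso (dualIso (shiftIso P a) ≪≫ rightDualTensorIso P U ≪≫ β_ _ _) U ≪≫
    α_ _ _ _ ≪≫ whiskerLeftIso _ (whiskerRightIso (dualOfInv (unitShift a)) U ≪≫ β_ _ _ ≪≫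
      unitShift a) ≪≫ ρ_ _

end Shift

end Pool.Agent.U735.IL
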