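import Pool.Agent.U735.IL.Defs
import Pool.Agent.U735.IL.Inv
import Pool.Agent.Y116.MT.Trace

/-!
# Morphisms between the t-homogeneous parts of Chow motives
-/

set_option autoImplicit false
set_option linter.unusedSectionVars false
set_option linter.unusedSimpArgs false
set_option backward.isDefEq.respectTransparency false
set_option backward.defeqAttrib.useBackward true

open CategoryTheory Limits MonoidalCategory Pretriangulated Triangulated

namespace Pool.Agent.U735.IL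

open Pool.Agent.Y116.MT Pool.Agent.V1178.MT

universe v u w

section

variable {C : Type u} [Category.{v} C] [Preadditive C] [HasZeroObject C] [HasShift C ℤ]
  [∀ n : ℤ, (shiftFunctor C n).Additive] [Pretriangulated C] [MonoidalCategory C]
  [SymmetricCategory C] [TensorTriangulated C] [MonoidalPreadditive C] [RightRigidCategory C]
  {Chow : ObjectProperty C} {T : C} {Λ : Type*} {E : Λ → Type w} [∀ l, Field (E l)]
  {R : ∀ l, Realisation C (E l)}

/-- The t-structure `t` is compatible with the tensor product, non-degenerate, with the unit in the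
heart, and the realisation `R` is t-exact. -/
structure Good (t : TStructure C) {E : Type w} [Field E] (R : Realisation C E) : Prop where
  ht : TensorCompat t
  he : TExact t R
  hu : Hrt t (𝟙_ C)
  hid : ∀ e : 𝟙_ C ⟶ 𝟙_ C, e ≫ e = e → e = 0 ∨ e = 𝟙 _
  hle : ∀ X : C, (∀ n : ℤ, t.le n X) → IsZero X
  hge : ∀ X : C, (∀ n : ℤ, t.ge n X) → IsZero X

/-- The object `X` is concentrated in the t-degree `d`. -/
def Cn (t : TStructure C) (d : ℤ) (X : C) : Prop := t.IsLE X d ∧ t.IsGE X d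

lemma Cn.iso {t : TStructure C} {d : ℤ} {X Y : C} (h : Cn t d X) (e : X ≅ Y) : Cn t d Y :=
  ⟨@TStructure.isLE_of_iso _ _ _ _ _ _ _ t _ _ e d h.1,
    @TStructure.isGE_of_iso _ _ _ _ _ _ _ t _ _ e d h.2⟩

lemma Cn.shift {t : TStructure C} {d : ℤ} {X : C} (h : Cn t d X) (a d' : ℤ) (hd : a + d' = d) :
    Cn t d' (X⟦a⟧) :=
  ⟨@TStructure.isLE_shift _ _ _ _ _ _ _ t X d a d' hd h.1,
    @TStructure.isGE_shift _ _ _ _ _ _ _ t X d a d' hd h.2⟩

lemma Cn.retract {t : TStructure C} {d : ℤ} {X Y : C} (h : Cn t d X) (i : Y ⟶ X) (r : X ⟶ Y)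
    (hir : i ≫ r = 𝟙 _) : Cn t d Y :=
  ⟨isLE_retract h.1 i r hir, isGE_retract h.2 i r hir⟩

lemma Cn.isZero {t : TStructure C} {d d' : ℤ} {X : C} (h : Cn t d X) (h' : Cn t d' X)
    (hd : d ≠ d') : IsZero X := by
  rcases lt_or_gt_of_ne hd with h1 | h1
  · exact @TStructure.isZero _ _ _ _ _ _ _ t X d d' h1 h.1 h'.2
  · exact @TStructure.isZero _ _ _ _ _ _ _ t X d' d h1 h'.1 h.2

lemma Cn.tensor {t : TStructure C} (ht : TensorCompat t) {a b : ℤ} {X Y : C} (hX : Cn t a X)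
    (hY : Cn t b Y) : Cn t (a + b) (X ⊗ Y) :=
  ⟨ht.isLE hX.1 hY.1, ht.isGE hX.2 hY.2⟩

lemma Cn.dual {t : TStructure C} (ht : TensorCompat t) (hu : Hrt t (𝟙_ C)) {d : ℤ} {X : C}
    (hX : Cn t d X) : Cn t (-d) (Xᘁ : C) := by
  have h1 : Cn t 0 (X⟦d⟧) := hX.shift d 0 (by omega)
  have h2 : Hrt t ((X⟦d⟧)ᘁ : C) := dual_hrt ht hu ⟨h1.1, h1.2⟩
  have h3 : Cn t 0 ((X⟦d⟧)ᘁ : C) := ⟨h2.1, h2.2⟩
  exact (h3.shift d (-d) (by omega)).iso (dualShift X d)

lemma ChowMotives.iso (hC : ChowMotives Chow T R) {P Q : C} (h : Chow P) (e : P ≅ Q) : Chow Q :=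
  hC.summand Q P e.inv e.hom (by simp) h

lemma ChowMotives.shiftZero (hC : ChowMotives Chow T R) {P : C} (h : Chow P) :
    Chow (P⟦(0 : ℤ)⟧) := hC.iso h ((shiftFunctorZero C ℤ).app P).symm

/-- Chow motives have no positive extensions. -/
lemma ChowMotives.zero_of_lt (hC : ChowMotives Chow T R) {X Y : C} {m n : ℤ}
    (hX : Chow (X⟦m⟧)) (hY : Chow (Y⟦n⟧)) (h : n < m) (f : X ⟶ Y) : f = 0 := by
  have h1 := hC.negative _ _ hX hY (m - n) (by omega)
    (f⟦m⟧' ≫ ((shiftFunctorAdd' C n (m - n) m (by omega)).app Y).hom)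
  have h2 : f⟦m⟧' = 0 := by
    rw [← cancel_mono ((shiftFunctorAdd' C n (m - n) m (by omega)).app Y).hom, h1, zero_comp]
  exact (shiftFunctor C m).map_injective (by rw [h2, Functor.map_zero])

lemma ChowMotives.tensorShift (hC : ChowMotives Chow T R) {X Y : C} {m n : ℤ}
    (hX : Chow (X⟦m⟧)) (hY : Chow (Y⟦n⟧)) : Chow ((X ⊗ Y)⟦m + n⟧) :=
  hC.iso (hC.tensor _ _ hX hY) (lrShift X Y m n)

lemma ChowMotives.dualShift (hC : ChowMotives Chow T R) {X : C} {m : ℤ}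
    (hX : Chow (X⟦m⟧)) : Chow ((Xᘁ : C)⟦-m⟧) :=
  hC.iso (hC.dual _ hX) ((shiftEquiv C m).unitIso.app _ ≪≫
    (shiftFunctor C (-m)).mapIso (IL.dualShift X m))

/-- Objects whose non-negative shift is a Chow motive have no positive extensions by the unit. -/
lemma ChowMotives.zero_unit (hC : ChowMotives Chow T R) {X : C}
    (hX : ∃ j : ℤ, 0 ≤ j ∧ Chow (X⟦j⟧)) (m : ℤ) (hm : 0 < m) (f : X ⟶ (𝟙_ C)⟦m⟧) : f = 0 := by
  obtain ⟨j, hj, hX⟩ := hX
  refine hC.zero_of_lt (n := -m) hX ?_ (by omega) f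
  exact hC.iso hC.unit ((shiftEquiv C m).unitIso.app _)

section one

variable {l : Λ} {t : TStructure C}

/-- There are no morphisms between parts of different weights. -/
lemma zero_of_weight [IsTriangulated C] [Linear ℚ C] (hC : ChowMotives Chow T R)
    (hG : Good t (R l)) {X Y : C} {m n d : ℤ} (hX : Chow (X⟦m⟧)) (hY : Chow (Y⟦n⟧))
    (hXd : Cn t d X) (hYd : Cn t d Y) (hmn : m ≠ n) (f : X ⟶ Y) : f = 0 := by
  rcases lt_or_gt_of_ne hmn with h | h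
  swap
  · exact hC.zero_of_lt hX hY h f
  apply eq_zero_of_nm
  by_contra hne
  have hQ1 : Cn t 0 (Y ⊗ Xᘁ) := by
    simpa using hYd.tensor hG.ht (hXd.dual hG.ht hG.hu)
  have hQ2 : Chow ((Y ⊗ Xᘁ)⟦n - m⟧) := hC.tensorShift hY (hC.dualShift hX)
  obtain ⟨r, hr⟩ := heart_pairing hG.ht hG.he hG.hu hG.hid (Q := Y ⊗ Xᘁ) ⟨hQ1.1, hQ1.2⟩
    (fun Z => ∃ j : ℤ, 0 ≤ j ∧ Chow (Z⟦j⟧)) ⟨0, le_refl _, hC.shiftZero hC.unit⟩
    (fun Z hZ => by
      obtain ⟨j, hj, hZ⟩ := hZ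
      exact ⟨j + (n - m), by omega, hC.tensorShift hZ hQ2⟩)
    (fun Z hZ m hm f => hC.zero_unit hZ m hm f) (nm f) hne
  have hr0 : r = 0 := hC.zero_of_lt (n := 0) hQ2 (hC.shiftZero hC.unit) (by omega) r
  exact hr (by rw [hr0, comp_zero])

/-- The trace form is non-degenerate on the endomorphisms of the parts of Chow motives. -/
lemma trace_nondeg [IsTriangulated C] [Linear ℚ C] (hC : ChowMotives Chow T R)
    (hG : Good t (R l)) {X : C} {m : ℤ} (hX : Chow (X⟦m⟧)) (hXd : Cn t 0 X) (a : X ⟶ X)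
    (ha : a ≠ 0) : ∃ b : X ⟶ X, tr (a ≫ b) ≠ 0 := by
  have hne : nm a ≠ 0 := fun h => ha (eq_zero_of_nm a h)
  have hQ1 : Cn t 0 (X ⊗ Xᘁ) := by
    simpa using hXd.tensor hG.ht (hXd.dual hG.ht hG.hu)
  have hQ2 : Chow ((X ⊗ Xᘁ)⟦(0 : ℤ)⟧) := by
    simpa using hC.tensorShift hX (hC.dualShift hX)
  obtain ⟨r, hr⟩ := heart_pairing hG.ht hG.he hG.hu hG.hid (Q := X ⊗ Xᘁ) ⟨hQ1.1, hQ1.2⟩
    (fun Z => ∃ j : ℤ, 0 ≤ j ∧ Chow (Z⟦j⟧)) ⟨0, le_refl _, hC.shiftZero hC.unit⟩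
    (fun Z hZ => by
      obtain ⟨j, hj, hZ⟩ := hZ
      exact ⟨j + 0, by omega, hC.tensorShift hZ hQ2⟩)
    (fun Z hZ m hm f => hC.zero_unit hZ m hm f) (nm a) hne
  obtain ⟨b, hb⟩ := exists_tr r
  exact ⟨b, by rw [← hb]; exact hr⟩

end one

end

end Pool.Agent.U735.IL
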