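import Pool.Agent.U735.IL.Final

/-!
# The existence of the t-structure from a conservative realisation
-/

set_option autoImplicit false
set_option linter.unusedSectionVars false
set_option linter.unusedSimpArgs false
set_option backward.isDefEq.respectTransparency false
set_option backward.defeqAttrib.useBackward true

open CategoryTheory Limits MonoidalCategory Pretriangulated Triangulated ZeroObject

namespace Pool.Agent.U735.IL

open Pool.Agent.Y116.MT Pool.Agent.V1178.MT

universe v u w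

section

variable {C : Type u} [Category.{v} C] [Preadditive C] [HasZeroObject C] [HasShift C ℤ]
  [∀ n : ℤ, (shiftFunctor C n).Additive] [Pretriangulated C] [MonoidalCategory C]
  [SymmetricCategory C] [TensorTriangulated C] [MonoidalPreadditive C] [RightRigidCategory C]
  [IsTriangulated C] {E : Type w} [Field E] {R : Realisation C E}

omit [IsTriangulated C] in
/-- The third term of a triangle. -/
lemma vzero₃ {X Y Z : C} {f : X ⟶ Y} {g : Y ⟶ Z} {h : Z ⟶ X⟦(1 : ℤ)⟧}
    (hT : Triangle.mk f g h ∈ distTriang C) (n : ℤ) (h1 : Epi (R.H.map (f⟦n⟧')))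
    (h2 : Mono (R.H.map (f⟦n + 1⟧'))) : IsZero (R.H.obj (Z⟦n⟧)) := by
  let _ := Functor.ShiftSequence.tautological R.H ℤ
  have e1 := (R.H.homologySequence_epi_shift_map_mor₁_iff _ hT n).1 h1
  have e2 := (R.H.homologySequence_mono_shift_map_mor₁_iff _ hT n (n + 1) rfl).1 h2
  exact (R.H.homologySequence_exact₃ _ hT n (n + 1) rfl).isZero_of_both_zeros e1 e2

omit [IsTriangulated C] in
lemma isIso_of_all (hc : Conservative R) {A B : C} {f : A ⟶ B} (hf : ∀ n : ℤ, VIso R n f) :
    IsIso f := by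
  let _ := Functor.ShiftSequence.tautological R.H ℤ
  have h1 : R.H.homologicalKernel.trW f := by
    rw [R.H.mem_homologicalKernel_trW_iff f]
    exact hf
  obtain ⟨Z, g, h, hT⟩ := distinguished_cocone_triangle f
  have h2 := (R.H.homologicalKernel.trW_iff_of_distinguished _ hT).1 h1
  exact isIso1_of_isZero3 hT (hc Z h2)

omit [IsTriangulated C] in
lemma vIso_zero_iff {X Y : C} (f : X ⟶ Y) : VIso R 0 f ↔ IsIso (R.H.map f) := by
  unfold VIso
  have h1 : R.H.map (f⟦(0 : ℤ)⟧') = R.H.map ((shiftFunctorZero C ℤ).hom.app X) ≫ R.H.map f ≫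
      R.H.map ((shiftFunctorZero C ℤ).inv.app Y) := by
    rw [← Functor.map_comp, ← Functor.map_comp]
    congr 1
    exact shiftZero' (A := ℤ) (f := f)
  rw [h1]
  constructor
  · intro h
    have h2 := IsIso.of_isIso_comp_left (R.H.map ((shiftFunctorZero C ℤ).hom.app X))
      (R.H.map f ≫ R.H.map ((shiftFunctorZero C ℤ).inv.app Y))
    exact IsIso.of_isIso_comp_right _ (R.H.map ((shiftFunctorZero C ℤ).inv.app Y))
  · intro h
    infer_instance

/-- Every object with cohomology in degrees `≥ 0` receives a morphism, which is an isomorphism in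
degree zero, from an object with cohomology in degree zero only: the lowest cohomology group of an
object is the realisation of an object (for the functor `H^i(X) = H(X[i])` given by `R`). -/
def LiftsLowest {E : Type w} [Field E] (R : Realisation C E) : Prop :=
  ∀ X : C, (∀ i : ℤ, i < 0 → IsZero (R.H.obj (X⟦i⟧))) →
    ∃ (A : C) (f : A ⟶ X), (∀ i : ℤ, i ≠ 0 → IsZero (R.H.obj (A⟦i⟧))) ∧ IsIso (R.H.map f)

omit [IsTriangulated C] in
lemma lifts_shift (hl : LiftsLowest R) {X : C} {a : ℤ}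
    (hX : ∀ i : ℤ, i < a → IsZero (R.H.obj (X⟦i⟧))) :
    ∃ (A : C) (f : A ⟶ X), (∀ i : ℤ, i ≠ a → IsZero (R.H.obj (A⟦i⟧))) ∧ VIso R a f := by
  obtain ⟨A, f, hA, hf⟩ := hl (X⟦a⟧) (fun i hi => (hX (a + i) (by omega)).of_iso
    (R.H.mapIso ((shiftFunctorAdd C a i).app X).symm))
  obtain ⟨g, hg⟩ := (shiftFunctor C a).map_surjective
    ((shiftEquiv C a).counitIso.hom.app A ≫ f : (A⟦-a⟧)⟦a⟧ ⟶ X⟦a⟧)
  refine ⟨A⟦-a⟧, g, fun i hi => ?_, ?_⟩
  · exact (hA (-a + i) (by omega)).of_iso (R.H.mapIso ((shiftFunctorAdd C (-a) i).app A).symm)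
  · unfold VIso
    rw [hg, Functor.map_comp]
    have : IsIso ((shiftEquiv C a).counitIso.hom.app A) := inferInstance
    exact IsIso.comp_isIso

omit [IsTriangulated C] in
lemma hz1' {X Y Z : C} (h : Tr X Y Z) (n : ℤ) (hX : IsZero (R.H.obj (X⟦n⟧)))
    (hZ : IsZero (R.H.obj (Z⟦n⟧))) : IsZero (R.H.obj (Y⟦n⟧)) := by
  obtain ⟨f, g, h, hT⟩ := h
  exact hz2 R.H hT n hX hZ

/-- The truncations. -/
lemma exists_trunc (hl : LiftsLowest R) {X : C} {a : ℤ}
    (hX : ∀ i : ℤ, i < a → IsZero (R.H.obj (X⟦i⟧))) (j : ℕ) :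
    ∃ A B, Tr A X B ∧ (∀ i : ℤ, a + j ≤ i → IsZero (R.H.obj (A⟦i⟧))) ∧
      (∀ i : ℤ, i < a + j → IsZero (R.H.obj (B⟦i⟧))) := by
  induction j with
  | zero =>
    exact ⟨0, X, Tr.zero₁ (Iso.refl X) (isZero_zero C),
      fun i _ => R.H.map_isZero (isZero_shift (isZero_zero C) i),
      fun i hi => hX i (by simpa using hi)⟩
  | succ j ih =>
    obtain ⟨A, B, hT, hA, hB⟩ := ih
    obtain ⟨A₁, f, hA₁, hf⟩ := lifts_shift hl hB
    obtain ⟨B₁, g, h, hT₁⟩ := distinguished_cocone_triangle f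
    obtain ⟨Y, hY1, hY2⟩ := hT.assoc' ⟨f, g, h, hT₁⟩
    have hf' : IsIso (R.H.map (f⟦a + j⟧')) := hf
    refine ⟨Y, B₁, hY2, fun i hi => ?_, fun i hi => ?_⟩
    · push_cast at hi
      exact hz1' hY1 i (hA i (by omega)) (hA₁ i (by omega))
    · push_cast at hi
      apply vzero₃ hT₁
      · by_cases h1 : i = a + j
        · subst h1
          infer_instance
        · have h2 : IsZero (R.H.obj (B⟦i⟧)) := hB i (by omega)
          exact ⟨fun _ _ _ => h2.eq_of_src _ _⟩
      · by_cases h1 : i + 1 = a + j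
        · rw [h1]
          infer_instance
        · have h2 : IsZero (R.H.obj (A₁⟦i + 1⟧)) := hA₁ _ (by omega)
          exact ⟨fun _ _ _ => h2.eq_of_tgt _ _⟩

omit [IsTriangulated C] in
lemma exists_trunc_zero' (hB : ∀ X : C, ∃ A B, Tr A X B ∧
      (∀ i : ℤ, 1 ≤ i → IsZero (R.H.obj (A⟦i⟧))) ∧
      (∀ i : ℤ, i < 1 → IsZero (R.H.obj (B⟦i⟧)))) (hc : Conservative R) {X Y : C} (f : X ⟶ Y)
    (hX : ∀ i : ℤ, 0 < i → IsZero (R.H.obj (X⟦i⟧)))
    (hY : ∀ i : ℤ, i < 1 → IsZero (R.H.obj (Y⟦i⟧))) : f = 0 := by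
  obtain ⟨F, p, q, hT⟩ := distinguished_cocone_triangle₁ f
  obtain ⟨U, W, ⟨u, v, w, hT'⟩, hU, hW⟩ := hB F
  have hi : IsIso (u ≫ p) := by
    apply isIso_of_all hc
    intro n
    by_cases hn : n < 1
    · exact VIso.comp (VIso.of₃ hT' (hW _ (by omega)) (hW _ hn))
        (VIso.of₃ hT (hY _ (by omega)) (hY _ hn))
    · have h1 := hU n (by omega)
      have h2 := hX n (by omega)
      exact ⟨0, h1.eq_of_src _ _, h2.eq_of_src _ _⟩
  have h1 : p ≫ f = 0 := comp12 hT
  rw [← cancel_epi (u ≫ p), Category.assoc, h1, comp_zero, comp_zero]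

/-- The t-structure defined by a conservative realisation. -/
noncomputable def tOf (hc : Conservative R) (hl : LiftsLowest R) : TStructure C := by
  have key : ∀ X : C, ∃ A B, Tr A X B ∧ (∀ i : ℤ, 1 ≤ i → IsZero (R.H.obj (A⟦i⟧))) ∧
      (∀ i : ℤ, i < 1 → IsZero (R.H.obj (B⟦i⟧))) := by
    intro X
    obtain ⟨N, hN⟩ := R.bounded X
    obtain ⟨A, B, hT, hA, hB⟩ := exists_trunc hl (X := X) (a := -N)
      (fun i hi => hN i (by omega)) (N + 1)
    exact ⟨A, B, hT, fun i hi => hA i (by push_cast; omega),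
      fun i hi => hB i (by push_cast; omega)⟩
  exact
    { le := fun n X => ∀ i : ℤ, n < i → IsZero (R.H.obj (X⟦i⟧))
      ge := fun n X => ∀ i : ℤ, i < n → IsZero (R.H.obj (X⟦i⟧))
      le_isClosedUnderIsomorphisms := fun n => ⟨fun e h i hi => (h i hi).of_iso
        (R.H.mapIso ((shiftFunctor C i).mapIso e.symm))⟩
      ge_isClosedUnderIsomorphisms := fun n => ⟨fun e h i hi => (h i hi).of_iso
        (R.H.mapIso ((shiftFunctor C i).mapIso e.symm))⟩
      le_shift := fun n a n' h X hX i hi => (hX (a + i) (by omega)).of_iso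
        (R.H.mapIso ((shiftFunctorAdd C a i).app X).symm)
      ge_shift := fun n a n' h X hX i hi => (hX (a + i) (by omega)).of_iso
        (R.H.mapIso ((shiftFunctorAdd C a i).app X).symm)
      zero' := fun X Y f hX hY => exists_trunc_zero' key hc f hX hY
      le_zero_le := fun X hX i hi => hX i (by omega)
      ge_one_le := fun X hX i hi => hX i (by omega)
      exists_triangle_zero_one := fun X => by
        obtain ⟨A, B, ⟨f, g, h, hT⟩, hA, hB⟩ := key X
        exact ⟨A, B, fun i hi => hA i (by omega), hB, f, g, h, hT⟩ }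

lemma tOf_exact (hc : Conservative R) (hl : LiftsLowest R) : TExact (tOf hc hl) R :=
  ⟨fun _ h i hi => h i hi, fun _ h i hi => h i hi⟩

omit [IsTriangulated C] in
/-- The lowest cohomology of every object lifts if the realisation is t-exact. -/
lemma lifts_of_exact {t : TStructure C} (he : TExact t R)
    (hge : ∀ X : C, (∀ i : ℤ, i < 0 → IsZero (R.H.obj (X⟦i⟧))) → t.IsGE X 0) :
    LiftsLowest R := by
  intro X hX
  obtain ⟨A, B, hA, hB, f, g, h, hT⟩ := t.exists_triangle X 0 1 rfl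
  have hX1 := hge X hX
  have hA1 : t.IsLE A 0 := ⟨hA⟩
  have hB1 : t.IsGE B 1 := ⟨hB⟩
  have hA2 : t.IsGE A 0 := isGE1 hT hX1 (t.isGE_of_ge B (0 - 1) 1)
  refine ⟨A, f, fun i hi => ?_, (vIso_zero_iff f).1 ?_⟩
  · rcases lt_or_gt_of_ne hi with h1 | h1
    · exact he.isGE hA2 i h1
    · exact he.isLE hA1 i h1
  · exact VIso.of₃ hT (he.isGE hB1 _ (by omega)) (he.isGE hB1 _ (by omega))

end

end Pool.Agent.U735.IL
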