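import Pool.Agent.U735.IL.Van

/-!
# Von Neumann regularity of the morphisms between the parts of Chow motives
-/

set_option autoImplicit false
set_option linter.unusedSectionVars false
set_option linter.unusedSimpArgs false
set_option backward.isDefEq.respectTransparency false
set_option backward.defeqAttrib.useBackward true

open CategoryTheory Limits MonoidalCategory Pretriangulated Triangulated

namespace Pool.Agent.U735.IL

open Pool.Agent.Y116.MT Pool.Agent.V1178.MT

universe v u w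

open Functor.LaxMonoidal

section

variable {C : Type u} [Category.{v} C] [Preadditive C] [HasZeroObject C] [HasShift C ℤ]
  [∀ n : ℤ, (shiftFunctor C n).Additive] [Pretriangulated C] [MonoidalCategory C]
  [SymmetricCategory C] [TensorTriangulated C] [MonoidalPreadditive C] [RightRigidCategory C]

/-- The action of the endomorphisms of the unit on the realisation of the unit. -/
noncomputable def ev {E : Type w} [Field E] (R : Realisation C E) : End (𝟙_ C) →+* E where
  toFun x := (ε R.H ≫ R.H.map x ≫ inv (ε R.H)).hom (1 : E)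
  map_one' := by
    have : R.H.map (1 : End (𝟙_ C)) = 𝟙 _ := R.H.map_id _
    rw [this, Category.id_comp, IsIso.hom_inv_id]
    rfl
  map_mul' x y := by
    have h1 : ∀ z : End (𝟙_ (ModuleCat.{w} E)), ∀ c : E, z.hom c = z.hom (1 : E) * c := by
      intro z c
      have := z.hom.map_smul c (1 : E)
      rw [smul_eq_mul, smul_eq_mul, mul_one] at this
      rw [this, mul_comm]
    have h2 : ε R.H ≫ R.H.map (x * y) ≫ inv (ε R.H) =
        (ε R.H ≫ R.H.map y ≫ inv (ε R.H)) ≫ (ε R.H ≫ R.H.map x ≫ inv (ε R.H)) := by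
      simp [End.mul_def]
    rw [h2]
    exact h1 (ε R.H ≫ R.H.map x ≫ inv (ε R.H)) ((ε R.H ≫ R.H.map y ≫ inv (ε R.H)).hom (1 : E))
  map_zero' := by
    simp
  map_add' x y := by
    have : R.H.map (x + y) = R.H.map x + R.H.map y := R.H.map_add
    rw [this]
    simp

lemma tr_add {X : C} (a b : X ⟶ X) : tr (a + b) = tr a + tr b := by
  simp [tr, MonoidalPreadditive.add_whiskerRight, Preadditive.add_comp, Preadditive.comp_add]

variable [Linear ℚ C] (hQ : ∀ e : 𝟙_ C ⟶ 𝟙_ C, ∃ q : ℚ, e = q • 𝟙 (𝟙_ C))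

include hQ in
lemma unit_idem (e : 𝟙_ C ⟶ 𝟙_ C) (he : e ≫ e = e) : e = 0 ∨ e = 𝟙 _ := by
  obtain ⟨q, rfl⟩ := hQ e
  by_cases h : (𝟙 (𝟙_ C)) = 0
  · left
    rw [h, smul_zero]
  · have h1 : (q * q - q) • 𝟙 (𝟙_ C) = 0 := by
      rw [sub_smul, mul_smul, sub_eq_zero]
      simpa using he
    have h2 : q * q - q = 0 := by
      by_contra h3
      exact h ((smul_eq_zero_iff_right h3).1 h1)
    have h3 : q = 0 ∨ q = 1 := by
      have : q * (q - 1) = 0 := by linarith
      rcases mul_eq_zero.1 this with h4 | h4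
      · exact Or.inl h4
      · exact Or.inr (by linarith)
    rcases h3 with rfl | rfl
    · left; simp
    · right; simp

/-- The rational number given by an endomorphism of the unit. -/
noncomputable def num (e : 𝟙_ C ⟶ 𝟙_ C) : ℚ := (hQ e).choose

lemma num_spec (e : 𝟙_ C ⟶ 𝟙_ C) : e = num hQ e • 𝟙 (𝟙_ C) := (hQ e).choose_spec

lemma ev_eq {E : Type w} [Field E] [Algebra ℚ E] (R : Realisation C E) (e : 𝟙_ C ⟶ 𝟙_ C) :
    ev R e = algebraMap ℚ E (num hQ e) := by
  have h1 : (ev R).comp (algebraMap ℚ (End (𝟙_ C))) = algebraMap ℚ E := Subsingleton.elim _ _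
  conv_lhs => rw [num_spec hQ e]
  rw [← h1]
  congr 1

lemma ratAlgebra {E : Type w} [Field E] (R : Realisation C E) : Nonempty (Algebra ℚ E) :=
  ⟨((ev R).comp (algebraMap ℚ (End (𝟙_ C)))).toAlgebra⟩

/-- The trace of an endomorphism of an object in degree zero, on the realisation. -/
theorem trace_eq {E : Type w} [Field E] [Algebra ℚ E] (R : Realisation C E) {X : C}
    (hX : R.Deg X 0) (a : X ⟶ X) :
    LinearMap.trace E (R.H.obj X) (R.H.map a).hom = algebraMap ℚ E (num hQ (tr a)) := by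
  rw [← ev_eq hQ R, ← H_trace hX a]
  rfl

end

section

variable {C : Type u} [Category.{v} C] [Preadditive C] [HasZeroObject C] [HasShift C ℤ]
  [∀ n : ℤ, (shiftFunctor C n).Additive] [Pretriangulated C] [MonoidalCategory C]
  [SymmetricCategory C] [TensorTriangulated C] [MonoidalPreadditive C] [RightRigidCategory C]
  [Linear ℚ C] (hQ : ∀ e : 𝟙_ C ⟶ 𝟙_ C, ∃ q : ℚ, e = q • 𝟙 (𝟙_ C)) [IsTriangulated C]
  {Chow : ObjectProperty C} {T : C} {Λ : Type*} {E : Λ → Type w} [∀ l, Field (E l)]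
  {R : ∀ l, Realisation C (E l)} {l : Λ} {t : TStructure C}

/-- The action of the endomorphisms on the realisation. -/
noncomputable def act {E : Type w} [Field E] (R : Realisation C E) (X : C) :
    End X →+* Module.End E (R.H.obj X) where
  toFun a := (R.H.map a).hom
  map_one' := by
    have : R.H.map (1 : End X) = 𝟙 _ := R.H.map_id _
    rw [this]
    rfl
  map_mul' x y := by
    have : R.H.map (x * y) = R.H.map y ≫ R.H.map x := R.H.map_comp _ _
    rw [this]
    rfl
  map_zero' := by simp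
  map_add' x y := by
    have : R.H.map (x + y) = R.H.map x + R.H.map y := R.H.map_add
    rw [this]
    rfl

include hQ

lemma regular_end (hC : ChowMotives Chow T R) (hG : Good t (R l)) {X : C} {m : ℤ}
    (hX : Chow (X⟦m⟧)) (hXd : Cn t 0 X) (a : X ⟶ X) : ∃ b : X ⟶ X, a ≫ b ≫ a = a := by
  obtain ⟨_⟩ := ratAlgebra (R l)
  have hdeg : (R l).Deg X 0 := hG.he.deg ⟨hXd.1, hXd.2⟩
  have hinj : Function.Injective (fun q : ℚ => q • 𝟙 (𝟙_ C)) := by
    intro p q hpq
    have h1 : (p - q) • 𝟙 (𝟙_ C) = 0 := by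
      rw [sub_smul, sub_eq_zero]
      exact hpq
    by_contra hne
    have h2 := (smul_eq_zero_iff_right (sub_ne_zero.2 hne)).1 h1
    exact not_isZero_unit (R l) ((IsZero.iff_id_eq_zero _).2 h2)
  let τ0 : End X →+ ℚ := AddMonoidHom.mk' (fun a : End X => num hQ (tr (X := X) a)) (by
    intro a b
    apply hinj
    have h1 : tr (X := X) (a + b) = tr (X := X) a + tr (X := X) b := tr_add a b
    have h2 : num hQ (tr (X := X) (a + b)) • 𝟙 (𝟙_ C) = (num hQ (tr (X := X) a) +
        num hQ (tr (X := X) b)) • 𝟙 (𝟙_ C) := by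
      rw [add_smul, ← num_spec, ← num_spec, ← num_spec, h1]
    exact h2)
  let τ : End X →ₗ[ℚ] ℚ := τ0.toRatLinearMap
  have hτ : ∀ a : End X, LinearMap.trace (E l) ((R l).H.obj X) (act (R l) X a) =
      algebraMap ℚ (E l) (τ a) := fun a => trace_eq hQ (R l) hdeg a
  have hnd : ∀ a : End X, a ≠ 0 → ∃ b : End X, τ (a * b) ≠ 0 := by
    intro a ha
    obtain ⟨b0, hb⟩ := trace_nondeg hC hG hX hXd a ha
    let b : End X := b0
    refine ⟨b, fun h0 => hb ?_⟩
    have h1 : algebraMap ℚ (E l) (τ (b * a)) = algebraMap ℚ (E l) (τ (a * b)) := by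
      rw [← hτ, ← hτ, (act (R l) X).map_mul, (act (R l) X).map_mul, LinearMap.trace_mul_comm]
    have h2 : τ (b * a) = 0 := by
      rw [h0, map_zero] at h1
      exact (map_eq_zero _).1 h1
    have h3 : num hQ (tr (X := X) (a ≫ b0)) = 0 := h2
    have h4 := num_spec hQ (tr (X := X) (a ≫ b0))
    rw [h4, h3, zero_smul]
  obtain ⟨b, hb⟩ := regular_of_trace (act (R l) X) τ hτ hnd a
  exact ⟨b, hb⟩

/-- The morphisms between parts of the same weight and degree are von Neumann regular. -/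
lemma regular_hom (hC : ChowMotives Chow T R) (hG : Good t (R l)) {X Y : C} {m d : ℤ}
    (hX : Chow (X⟦m⟧)) (hY : Chow (Y⟦m⟧)) (hXd : Cn t d X) (hYd : Cn t d Y) (f : X ⟶ Y) :
    ∃ g : Y ⟶ X, f ≫ g ≫ f = f := by
  let S : C := X⟦d⟧ ⊞ Y⟦d⟧
  have hXd0 : Cn t 0 (X⟦d⟧) := hXd.shift d 0 (by omega)
  have hYd0 : Cn t 0 (Y⟦d⟧) := hYd.shift d 0 (by omega)
  have hS0 : Cn t 0 S :=
    ⟨@TStructure.isLE₂ _ _ _ _ _ _ _ t _ (binaryBiproductTriangle_distinguished _ _) 0 hXd0.1
      hYd0.1, @TStructure.isGE₂ _ _ _ _ _ _ _ t _ (binaryBiproductTriangle_distinguished _ _) 0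
      hXd0.2 hYd0.2⟩
  have hS : Chow (S⟦m - d⟧) := by
    refine hC.iso (hC.sum _ _ hX hY) ?_
    have := preservesBinaryBiproduct_of_preservesBiproduct (shiftFunctor C (m - d))
    refine ?_ ≪≫ ((shiftFunctor C (m - d)).mapBiprod (X⟦d⟧) (Y⟦d⟧)).symm
    exact biprod.mapIso ((shiftFunctorAdd' C d (m - d) m (by omega)).app X)
      ((shiftFunctorAdd' C d (m - d) m (by omega)).app Y)
  let a : S ⟶ S := biprod.fst ≫ f⟦d⟧' ≫ biprod.inr
  obtain ⟨b, hb⟩ := regular_end hQ hC hG hS hS0 a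
  have h1 : f⟦d⟧' ≫ (biprod.inr ≫ b ≫ biprod.fst) ≫ f⟦d⟧' = f⟦d⟧' := by
    have h2 := congrArg (fun x => biprod.inl ≫ x ≫ biprod.snd) hb
    simpa [a] using h2
  obtain ⟨g, hg⟩ := (shiftFunctor C d).map_surjective (biprod.inr ≫ b ≫ biprod.fst :
    Y⟦d⟧ ⟶ X⟦d⟧)
  refine ⟨g, (shiftFunctor C d).map_injective ?_⟩
  rw [Functor.map_comp, Functor.map_comp, hg]
  exact h1

end

end Pool.Agent.U735.IL
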