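import Pool.Agent.Y116.MT.Tri

/-!
# Extension closed classes in triangulated categories, and how to reorder them
-/

set_option autoImplicit false
set_option linter.unusedSectionVars false
set_option linter.unusedSimpArgs false
set_option backward.isDefEq.respectTransparency false
set_option backward.defeqAttrib.useBackward true

open CategoryTheory Limits Pretriangulated Triangulated ZeroObject

namespace Pool.Agent.U735.IL

open Pool.Agent.Y116.MT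

universe v u

section

variable {C : Type u} [Category.{v} C] [Preadditive C] [HasZeroObject C] [HasShift C ℤ]
  [∀ n : ℤ, (shiftFunctor C n).Additive] [Pretriangulated C]

/-- There is a distinguished triangle `X ⟶ Y ⟶ Z ⟶ X⟦1⟧`. -/
def Tr (X Y Z : C) : Prop :=
  ∃ (f : X ⟶ Y) (g : Y ⟶ Z) (h : Z ⟶ X⟦(1 : ℤ)⟧), Triangle.mk f g h ∈ distTriang C

lemma Tr.ofIso₂ {X Y Y' Z : C} (h : Tr X Y Z) (e : Y ≅ Y') : Tr X Y' Z := by
  obtain ⟨f, g, d, hT⟩ := h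
  exact ⟨f ≫ e.hom, e.inv ≫ g, d, isomorphic_distinguished _ hT _
    (Triangle.isoMk _ _ (Iso.refl _) e.symm (Iso.refl _))⟩

lemma Tr.ofIso₁ {X X' Y Z : C} (h : Tr X Y Z) (e : X ≅ X') : Tr X' Y Z := by
  obtain ⟨f, g, d, hT⟩ := h
  exact ⟨e.inv ≫ f, g, d ≫ e.hom⟦1⟧', isomorphic_distinguished _ hT _
    (Triangle.isoMk _ _ e.symm (Iso.refl _) (Iso.refl _) (by simp) (by simp)
      (by simp [← Functor.map_comp]))⟩

lemma Tr.ofIso₃ {X Y Z Z' : C} (h : Tr X Y Z) (e : Z ≅ Z') : Tr X Y Z' := by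
  obtain ⟨f, g, d, hT⟩ := h
  exact ⟨f, g ≫ e.hom, e.inv ≫ d, isomorphic_distinguished _ hT _
    (Triangle.isoMk _ _ (Iso.refl _) (Iso.refl _) e.symm)⟩

lemma Tr.zero₃ {X Y Z : C} (e : X ≅ Y) (hZ : IsZero Z) : Tr X Y Z :=
  ⟨e.hom, 0, 0, (Triangle.distinguished_iff_of_isZero₃ _ hZ).2
    (inferInstanceAs (IsIso e.hom))⟩

lemma Tr.zero₁ {X Y Z : C} (e : Y ≅ Z) (hX : IsZero X) : Tr X Y Z :=
  ⟨0, e.hom, 0, (Triangle.distinguished_iff_of_isZero₁ _ hX).2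
    (inferInstanceAs (IsIso e.hom))⟩

lemma Tr.isoOfZero₃ {X Y Z : C} (h : Tr X Y Z) (hZ : IsZero Z) : Nonempty (X ≅ Y) := by
  obtain ⟨f, g, d, hT⟩ := h
  have := isIso1_of_isZero3 hT hZ
  exact ⟨asIso f⟩

lemma Tr.isoOfZero₁ {X Y Z : C} (h : Tr X Y Z) (hX : IsZero X) : Nonempty (Y ≅ Z) := by
  obtain ⟨f, g, d, hT⟩ := h
  have := isIso2_of_isZero1 hT hX
  exact ⟨asIso g⟩

variable [IsTriangulated C]

/-- `(X' * X'') * Z = X' * (X'' * Z)`. -/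
lemma Tr.assoc {X' X X'' Y Z : C} (h : Tr X' X X'') (h' : Tr X Y Z) :
    ∃ W, Tr X' Y W ∧ Tr X'' W Z := by
  obtain ⟨f, g, d, hT⟩ := h
  obtain ⟨f', g', d', hT'⟩ := h'
  obtain ⟨W, p, q, hW⟩ := distinguished_cocone_triangle (f ≫ f')
  exact ⟨W, ⟨_, _, _, hW⟩, ⟨_, _, _, (someOctahedron rfl hT hT' hW).mem⟩⟩

/-- `X * (Z' * Z'') = (X * Z') * Z''`. -/
lemma Tr.assoc' {X Y W Z' Z'' : C} (h : Tr X Y W) (h' : Tr Z' W Z'') :
    ∃ Y', Tr X Y' Z' ∧ Tr Y' Y Z'' := by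
  obtain ⟨f, g, d, hT⟩ := h
  obtain ⟨f', g', d', hT'⟩ := h'
  obtain ⟨Y', p, q, hY⟩ := distinguished_cocone_triangle₁ (g ≫ g')
  exact ⟨Y', ⟨_, _, _, (someOctahedron' rfl hT hT' hY).mem⟩, ⟨_, _, _, hY⟩⟩

/-- The extension closure of a class of objects. -/
inductive Ext (A : ObjectProperty C) : C → Prop
  | zero {X : C} : IsZero X → Ext A X
  | step {X Y Z : C} : Tr X Y Z → Ext A X → A Z → Ext A Y

omit [IsTriangulated C] in
lemma Ext.iso {A : ObjectProperty C} {X Y : C} (h : Ext A X) (e : X ≅ Y) : Ext A Y := by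
  cases h with
  | zero hX => exact .zero (hX.of_iso e.symm)
  | step hT hX hZ => exact .step (hT.ofIso₂ e) hX hZ

omit [IsTriangulated C] in
lemma Ext.of {A : ObjectProperty C} {X : C} (h : A X) : Ext A X :=
  .step (Tr.zero₁ (Iso.refl X) (isZero_zero C)) (.zero (isZero_zero C)) h

/-- The extension closure is closed under extensions. -/
lemma Ext.ext {A : ObjectProperty C} {X Y Z : C} (h : Tr X Y Z) (hX : Ext A X) (hZ : Ext A Z) :
    Ext A Y := by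
  induction hZ generalizing X Y with
  | zero hz =>
    obtain ⟨e⟩ := h.isoOfZero₃ hz
    exact hX.iso e
  | step hT _ ha ih =>
    obtain ⟨W, h1, h2⟩ := h.assoc' hT
    exact .step h2 (ih h1 hX) ha

/-- The class of extensions. -/
def Star (A B : ObjectProperty C) : ObjectProperty C := fun Y =>
  ∃ X Z, A X ∧ B Z ∧ Tr X Y Z

/-- Reordering, first step. -/
lemma swap_aux {A B : ObjectProperty C} (hs : ∀ X Y Z, A X → B Z → Tr X Y Z → Star B A Y)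
    {X Y Z : C} (hX : Ext A X) (hZ : B Z) (h : Tr X Y Z) :
    ∃ Z' X', B Z' ∧ Ext A X' ∧ Tr Z' Y X' := by
  induction hX generalizing Y Z with
  | zero hz =>
    obtain ⟨e⟩ := h.isoOfZero₁ hz
    exact ⟨Z, 0, hZ, .zero (isZero_zero C), Tr.zero₃ e.symm (isZero_zero C)⟩
  | step hT _ ha ih =>
    obtain ⟨W, h1, h2⟩ := hT.assoc h
    obtain ⟨Z1, X1, hZ1, hX1, h3⟩ := hs _ _ _ ha hZ h2
    obtain ⟨Y1, h4, h5⟩ := h1.assoc' h3
    obtain ⟨Z2, X2, hZ2, hX2, h6⟩ := ih hZ1 h4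
    obtain ⟨W2, h7, h8⟩ := h6.assoc h5
    exact ⟨Z2, W2, hZ2, .step h8 hX2 hX1, h7⟩

/-- Reordering. -/
lemma swap {A B : ObjectProperty C} (hs : ∀ X Y Z, A X → B Z → Tr X Y Z → Star B A Y)
    {X Y Z : C} (hX : Ext A X) (hZ : Ext B Z) (h : Tr X Y Z) :
    ∃ Z' X', Ext B Z' ∧ Ext A X' ∧ Tr Z' Y X' := by
  induction hZ generalizing X Y with
  | zero hz =>
    obtain ⟨e⟩ := h.isoOfZero₃ hz
    exact ⟨0, X, .zero (isZero_zero C), hX, Tr.zero₁ e.symm (isZero_zero C)⟩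
  | step hT _ hb ih =>
    obtain ⟨W, h1, h2⟩ := h.assoc' hT
    obtain ⟨Z1, X1, hZ1, hX1, h3⟩ := ih hX h1
    obtain ⟨W2, h4, h5⟩ := h3.assoc h2
    obtain ⟨Z3, X3, hZ3, hX3, h6⟩ := swap_aux hs hX1 hb h5
    obtain ⟨Y4, h7, h8⟩ := h4.assoc' h6
    exact ⟨Y4, X3, .step h7 hZ1 hZ3, hX3, h8⟩

/-- If `A * B` is contained in `B * A`, then the extensions of objects of the closure of `A` by
objects of the closure of `B` are closed under extensions. -/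
lemma star_ext {A B : ObjectProperty C} (hs : ∀ X Y Z, A X → B Z → Tr X Y Z → Star B A Y)
    {X Y Z : C} (h : Tr X Y Z) (hX : Star (Ext B) (Ext A) X) (hZ : Star (Ext B) (Ext A) Z) :
    Star (Ext B) (Ext A) Y := by
  obtain ⟨U1, V1, hU1, hV1, h1⟩ := hX
  obtain ⟨U2, V2, hU2, hV2, h2⟩ := hZ
  obtain ⟨W, h3, h4⟩ := h1.assoc h
  obtain ⟨W', h5, h6⟩ := h4.assoc' h2
  obtain ⟨U3, V3, hU3, hV3, h7⟩ := swap hs hV1 hU2 h5
  obtain ⟨V4, h8, h9⟩ := h7.assoc h6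
  obtain ⟨U4, h10, h11⟩ := h3.assoc' h8
  exact ⟨U4, V4, Ext.ext h10 hU1 hU3, Ext.ext h9 hV3 hV2, h11⟩

end

end Pool.Agent.U735.IL
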