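import Pool.Agent.U735.IL.Reg
import Pool.Agent.U735.IL.Ext

/-!
# Reordering extensions of parts of Chow motives
-/

set_option autoImplicit false
set_option linter.unusedSectionVars false
set_option linter.unusedSimpArgs false
set_option backward.isDefEq.respectTransparency false
set_option backward.defeqAttrib.useBackward true

open CategoryTheory Limits MonoidalCategory Pretriangulated Triangulated

namespace Pool.Agent.U735.IL

open Pool.Agent.Y116.MT Pool.Agent.V1178.MT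

universe v u w

section

variable {C : Type u} [Category.{v} C] [Preadditive C] [HasZeroObject C] [HasShift C ℤ]
  [∀ n : ℤ, (shiftFunctor C n).Additive] [Pretriangulated C] [MonoidalCategory C]
  [SymmetricCategory C] [TensorTriangulated C] [MonoidalPreadditive C] [RightRigidCategory C]
  {Chow : ObjectProperty C} {T : C} {Λ : Type*} {E : Λ → Type w} [∀ l, Field (E l)]
  {R : ∀ l, Realisation C (E l)}

/-- A shift of a Chow motive which is concentrated in the t-degree `d`. -/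
def PS (Chow : ObjectProperty C) (t : TStructure C) (d : ℤ) (X : C) : Prop :=
  Cn t d X ∧ ∃ m : ℤ, Chow (X⟦m⟧)

lemma PS.retract (hC : ChowMotives Chow T R) {t : TStructure C} {d : ℤ} {X Y : C}
    (h : PS Chow t d X) (i : Y ⟶ X) (r : X ⟶ Y) (hir : i ≫ r = 𝟙 _) : PS Chow t d Y := by
  obtain ⟨h1, m, h2⟩ := h
  exact ⟨h1.retract i r hir, m, hC.summand _ _ (i⟦m⟧') (r⟦m⟧') (by
    rw [← Functor.map_comp, hir, CategoryTheory.Functor.map_id]) h2⟩

lemma hom_zero {t : TStructure C} {X Y : C} {a b : ℤ} (hX : t.IsLE X a) (hY : t.IsGE Y b)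
    (h : a < b) (f : X ⟶ Y) : f = 0 :=
  t.zero_of_isLE_of_isGE f a b h hX hY

/-- The two t-homogeneous parts of an extension with regular connecting map. -/
lemma split_regular (hC : ChowMotives Chow T R) {t : TStructure C} {X Y Z : C} {f : X ⟶ Z}
    {g : Z ⟶ Y} {h : Y ⟶ X⟦(1 : ℤ)⟧} (hT : Triangle.mk f g h ∈ distTriang C)
    {d₁ d₂ : ℤ} (hd : d₂ < d₁) (hX : PS Chow t d₁ X) (hY : PS Chow t d₂ Y)
    (hk : ∃ k : X⟦(1 : ℤ)⟧ ⟶ Y, h ≫ k ≫ h = h) :
    ∃ A B, PS Chow t d₂ A ∧ PS Chow t d₁ B ∧ Tr A Z B := by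
  obtain ⟨k, hk⟩ := hk
  obtain ⟨A, B, hA, hB, i, p, δ, hT'⟩ := t.exists_triangle Z d₂ (d₂ + 1) rfl
  have hA1 : t.IsLE A d₂ := ⟨hA⟩
  have hB1 : t.IsGE B (d₂ + 1) := ⟨hB⟩
  have hA2 : t.IsLE (A⟦(1 : ℤ)⟧) (d₂ - 1) := t.isLE_shift A d₂ 1 (d₂ - 1)
  refine ⟨A, B, ?_, ?_, ⟨i, p, δ, hT'⟩⟩
  · obtain ⟨s, hs⟩ := ce3 hT (𝟙 Y - h ≫ k) (by
      rw [Preadditive.sub_comp, Category.id_comp, Category.assoc, hk, sub_self])
    obtain ⟨s', hs'⟩ := ce2 hT' s (hom_zero hY.1.1 hB1 (by omega) _)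
    refine hY.retract hC (i ≫ g) s' ?_
    have h1 : ((i ≫ g) ≫ s' - 𝟙 A) ≫ i ≫ g = 0 := by
      have h2 : s' ≫ i ≫ g = 𝟙 Y - h ≫ k := by
        rw [hs, hs', Category.assoc]
      rw [Preadditive.sub_comp, Category.assoc, h2, Preadditive.comp_sub, Category.comp_id,
        Category.id_comp, Category.assoc, reassoc_of% (comp23 hT), zero_comp, comp_zero, sub_zero,
        sub_self]
    obtain ⟨y, hy⟩ := ce2 hT (((i ≫ g) ≫ s' - 𝟙 A) ≫ i) (by rw [Category.assoc]; exact h1)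
    have hy0 : y = 0 := hom_zero hA1 hX.1.2 (by omega) _
    rw [hy0, zero_comp] at hy
    obtain ⟨z, hz⟩ := ce1 hT' (((i ≫ g) ≫ s' - 𝟙 A)⟦(1 : ℤ)⟧') (by
      rw [← Functor.map_comp, hy, Functor.map_zero])
    have hz0 : z = 0 := hom_zero hA2 hB1 (by omega) _
    rw [hz0, zero_comp] at hz
    have h3 := (shiftFunctor C (1 : ℤ)).map_injective (hz.trans (Functor.map_zero _ _ _).symm)
    exact sub_eq_zero.1 h3
  · obtain ⟨e, he⟩ := (shiftFunctor C (1 : ℤ)).map_surjective (𝟙 (X⟦(1 : ℤ)⟧) - k ≫ h)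
    obtain ⟨l, hl⟩ := ye1' hT e (by
      rw [he, Preadditive.comp_sub, Category.comp_id, hk, sub_self])
    obtain ⟨l', hl'⟩ := ye2 hT' l (hom_zero hA1 hX.1.2 (by omega) _)
    refine hX.retract hC l' (f ≫ p) ?_
    have hef : e ≫ f = f := by
      apply (shiftFunctor C (1 : ℤ)).map_injective
      rw [Functor.map_comp, he, Preadditive.sub_comp, Category.id_comp, Category.assoc,
        comp31 hT, comp_zero, sub_zero]
    have h1 : f ≫ p ≫ (l' ≫ f ≫ p - 𝟙 B) = 0 := by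
      have h2 : f ≫ p ≫ l' = e := by rw [← hl', ← hl]
      rw [Preadditive.comp_sub, Preadditive.comp_sub, Category.comp_id, reassoc_of% h2,
        reassoc_of% hef, sub_self]
    obtain ⟨y, hy⟩ := ye2 hT (p ≫ (l' ≫ f ≫ p - 𝟙 B)) h1
    have hy0 : y = 0 := hom_zero hY.1.1 hB1 (by omega) _
    rw [hy0, comp_zero] at hy
    obtain ⟨z, hz⟩ := ye3 hT' _ hy
    have hz0 : z = 0 := hom_zero hA2 hB1 (by omega) _
    rw [hz0, comp_zero] at hz
    exact sub_eq_zero.1 hz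

variable [Linear ℚ C] (hQ : ∀ e : 𝟙_ C ⟶ 𝟙_ C, ∃ q : ℚ, e = q • 𝟙 (𝟙_ C)) [IsTriangulated C]

include hQ in
/-- The swap of two parts in the wrong order. -/
lemma swap_parts (hC : ChowMotives Chow T R) {l : Λ} {t : TStructure C} (hG : Good t (R l))
    {X Y Z : C} {d₁ d₂ : ℤ} (hd : d₂ < d₁) (hX : PS Chow t d₁ X) (hY : PS Chow t d₂ Y)
    (h : Tr X Z Y) : ∃ A B, PS Chow t d₂ A ∧ PS Chow t d₁ B ∧ Tr A Z B := by
  obtain ⟨f, g, h, hT⟩ := h
  refine split_regular hC hT hd hX hY ?_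
  obtain ⟨hX1, m, hm⟩ := hX
  obtain ⟨hY1, n, hn⟩ := hY
  have hX2 : Cn t (d₁ - 1) (X⟦(1 : ℤ)⟧) := hX1.shift 1 (d₁ - 1) (by omega)
  by_cases hd' : d₂ < d₁ - 1
  · exact ⟨0, by rw [hom_zero hY1.1 hX2.2 hd' h]; simp⟩
  obtain rfl : d₂ = d₁ - 1 := by omega
  have hm' : Chow ((X⟦(1 : ℤ)⟧)⟦m - 1⟧) :=
    hC.iso hm ((shiftFunctorAdd' C 1 (m - 1) m (by omega)).app X)
  by_cases hmn : n = m - 1
  · subst hmn
    exact regular_hom hQ hC hG hn hm' hY1 hX2 h
  · exact ⟨0, by rw [zero_of_weight hC hG hn hm' hY1 hX2 hmn h]; simp⟩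

end

end Pool.Agent.U735.IL
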