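import Pool.Agent.U735.IL.Split
import Pool.Agent.U735.IL.Swap
import Pool.Agent.V1178.MT.Main

/-!
# Independence of l
-/

set_option autoImplicit false
set_option linter.unusedSectionVars false
set_option linter.unusedSimpArgs false
set_option backward.isDefEq.respectTransparency false
set_option backward.defeqAttrib.useBackward true

open CategoryTheory Limits MonoidalCategory Pretriangulated Triangulated ZeroObject

namespace Pool.Agent.U735.IL

open Pool.Agent.Y116.MT Pool.Agent.V1178.MT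

universe v u w

section

variable {C : Type u} [Category.{v} C] [Preadditive C] [HasZeroObject C] [HasShift C ℤ]
  [∀ n : ℤ, (shiftFunctor C n).Additive] [Pretriangulated C] [MonoidalCategory C]
  [SymmetricCategory C] [TensorTriangulated C] [MonoidalPreadditive C] [RightRigidCategory C]
  [IsTriangulated C]
  {Chow : ObjectProperty C} {T : C} {Λ : Type*} {E : Λ → Type w} [∀ l, Field (E l)]
  {R : ∀ l, Realisation C (E l)} {l : Λ} {t : TStructure C}

lemma Good.cons (hG : Good t (R l)) : Conservative (R l) := fun _ hX =>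
  conservative hG.ht hG.he hG.hu hG.hid hG.hle hG.hge hX

/-- The parts of a Chow motive are Chow motives. -/
lemma chow_pc (hC : ChowMotives Chow T R) (hG : Good t (R l)) {P : C} (hP : Chow P) (n : ℤ) :
    Chow ((pc t n).obj P) := by
  obtain ⟨Q, i, r, e, hir, hQ, hL⟩ := hC.lefschetz.lefschetz P hP
  obtain ⟨T', ⟨eT⟩⟩ := hC.lefschetz.invertible
  obtain ⟨N, hN⟩ := (R l).bounded Q
  have hT : Cn t (-2) T :=
    ⟨isLE_of_H hG.ht hG.he hG.hu hG.hid hG.hle hG.hge fun i hi =>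
      hC.lefschetz.degree l i (by omega),
    isGE_of_H hG.ht hG.he hG.hu hG.hid hG.hle hG.hge fun i hi =>
      hC.lefschetz.degree l i (by omega)⟩
  have hs : Sp t Q := by
    refine sp_of_lefschetz hG.ht hG.cons hG.he eT hT (N + e.natAbs) Q e ?_ ?_ ?_
    · exact isGE_of_H hG.ht hG.he hG.hu hG.hid hG.hle hG.hge fun i hi =>
        hN i (by omega)
    · exact isLE_of_H hG.ht hG.he hG.hu hG.hid hG.hle hG.hge fun i hi =>
        hN i (by omega)
    · intro k _
      obtain ⟨L, hL⟩ := hL k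
      exact ⟨L, hL l⟩
  obtain ⟨j, s, hjs⟩ := hs n
  have h1 : Chow ((pc t n).obj Q) := hC.summand _ _ j s hjs hQ
  refine hC.summand _ _ ((pc t n).map i) ((pc t n).map r) ?_ h1
  rw [← Functor.map_comp, hir, CategoryTheory.Functor.map_id]

/-- The objects of t-degree at most `c` which are shifts of Chow motives. -/
def Lo (Chow : ObjectProperty C) (t : TStructure C) (c : ℤ) : ObjectProperty C := fun X =>
  ∃ d, d ≤ c ∧ PS Chow t d X

/-- The objects of t-degree greater than `c` which are shifts of Chow motives. -/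
def Hi (Chow : ObjectProperty C) (t : TStructure C) (c : ℤ) : ObjectProperty C := fun X =>
  ∃ d, c < d ∧ PS Chow t d X

lemma star_zero {A B : ObjectProperty C} {X : C} (hX : IsZero X) : Star (Ext A) (Ext B) X :=
  ⟨X, 0, .zero hX, .zero (isZero_zero C), Tr.zero₃ (Iso.refl X) (isZero_zero C)⟩

lemma star_part (c : ℤ) {X : C} {d : ℤ} (hX : PS Chow t d X) :
    Star (Ext (Lo Chow t c)) (Ext (Hi Chow t c)) X := by
  by_cases h : d ≤ c
  · exact ⟨X, 0, Ext.of ⟨d, h, hX⟩, .zero (isZero_zero C), Tr.zero₃ (Iso.refl X) (isZero_zero C)⟩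
  · exact ⟨0, X, .zero (isZero_zero C), Ext.of ⟨d, by omega, hX⟩,
      Tr.zero₁ (Iso.refl X) (isZero_zero C)⟩

lemma star_iso {A B : ObjectProperty C} {X Y : C} (h : Star (Ext A) (Ext B) X) (e : X ≅ Y) :
    Star (Ext A) (Ext B) Y := by
  obtain ⟨U, V, hU, hV, hT⟩ := h
  exact ⟨U, V, hU, hV, hT.ofIso₂ e⟩

lemma Tr.shift {X Y Z : C} (h : Tr X Y Z) (m : ℤ) : Tr (X⟦m⟧) (Y⟦m⟧) (Z⟦m⟧) := by
  obtain ⟨f, g, d, hT⟩ := h
  exact ⟨_, _, _, Triangle.shift_distinguished _ hT m⟩

lemma ext_le {c : ℤ} {X : C} (h : Ext (Lo Chow t c) X) : t.IsLE X c := by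
  induction h with
  | zero h => exact t.isLE_of_isZero h c
  | step hT _ hZ ih =>
    obtain ⟨d, hd, hZ⟩ := hZ
    obtain ⟨f, g, h, hT⟩ := hT
    exact isLE2 hT ih (@TStructure.isLE_of_le _ _ _ _ _ _ _ t _ d c hd hZ.1.1)

lemma ext_ge {c : ℤ} {X : C} (h : Ext (Hi Chow t c) X) : t.IsGE X (c + 1) := by
  induction h with
  | zero h => exact t.isGE_of_isZero h (c + 1)
  | step hT _ hZ ih =>
    obtain ⟨d, hd, hZ⟩ := hZ
    obtain ⟨f, g, h, hT⟩ := hT
    exact isGE2 hT ih (@TStructure.isGE_of_ge _ _ _ _ _ _ _ t _ (c + 1) d (by omega) hZ.1.2)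

/-- The other realisations of the parts. -/
lemma part_vanish (hC : ChowMotives Chow T R) (he : TExact t (R l)) (l' : Λ) {X : C} {d : ℤ}
    (hX : PS Chow t d X) {i : ℤ} (hi : i ≠ d) : IsZero ((R l').H.obj (X⟦i⟧)) := by
  obtain ⟨hX, m, hm⟩ := hX
  have h1 := hC.betti _ hm (i - m) l l'
  have h2 : IsZero ((R l).H.obj ((X⟦m⟧)⟦i - m⟧)) :=
    (hX.vzero he hi).of_iso ((R l).H.mapIso ((shiftFunctorAdd' C m (i - m) i
      (by omega)).app X).symm)
  have h3 : Subsingleton ((R l).H.obj ((X⟦m⟧)⟦i - m⟧)) := ModuleCat.subsingleton_of_isZero h2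
  rw [Module.finrank_zero_of_subsingleton] at h1
  have h4 : Subsingleton ((R l').H.obj ((X⟦m⟧)⟦i - m⟧)) := Module.finrank_zero_iff.1 h1.symm
  have h5 : IsZero ((R l').H.obj ((X⟦m⟧)⟦i - m⟧)) := ModuleCat.isZero_iff_subsingleton.2 h4
  exact h5.of_iso ((R l').H.mapIso ((shiftFunctorAdd' C m (i - m) i (by omega)).app X))

lemma ext_vanish_le (hC : ChowMotives Chow T R) (he : TExact t (R l)) (l' : Λ) {c : ℤ} {X : C}
    (h : Ext (Lo Chow t c) X) {i : ℤ} (hi : c < i) : IsZero ((R l').H.obj (X⟦i⟧)) := by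
  induction h with
  | zero h => exact (R l').H.map_isZero (isZero_shift h i)
  | step hT _ hZ ih =>
    obtain ⟨d, hd, hZ⟩ := hZ
    obtain ⟨f, g, h, hT⟩ := hT
    exact hz2 (R l').H hT i ih (part_vanish hC he l' hZ (by omega))

lemma ext_vanish_ge (hC : ChowMotives Chow T R) (he : TExact t (R l)) (l' : Λ) {c : ℤ} {X : C}
    (h : Ext (Hi Chow t c) X) {i : ℤ} (hi : i ≤ c) : IsZero ((R l').H.obj (X⟦i⟧)) := by
  induction h with
  | zero h => exact (R l').H.map_isZero (isZero_shift h i)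
  | step hT _ hZ ih =>
    obtain ⟨d, hd, hZ⟩ := hZ
    obtain ⟨f, g, h, hT⟩ := hT
    exact hz2 (R l').H hT i ih (part_vanish hC he l' hZ (by omega))

variable [Linear ℚ C] (hQ : ∀ e : 𝟙_ C ⟶ 𝟙_ C, ∃ q : ℚ, e = q • 𝟙 (𝟙_ C))

include hQ

/-- Every object is an extension of an iterated extension of parts of t-degree greater than `c` by
an iterated extension of parts of t-degree at most `c`. -/
theorem star_all (hC : ChowMotives Chow T R) (hG : Good t (R l)) (c : ℤ) (X : C) :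
    Star (Ext (Lo Chow t c)) (Ext (Hi Chow t c)) X := by
  have hext : ∀ (X Y Z : C), Tr X Y Z → Star (Ext (Lo Chow t c)) (Ext (Hi Chow t c)) X →
      Star (Ext (Lo Chow t c)) (Ext (Hi Chow t c)) Z →
      Star (Ext (Lo Chow t c)) (Ext (Hi Chow t c)) Y := by
    intro X Y Z h hX hZ
    refine star_ext ?_ h hX hZ
    intro X Y Z hX hZ h
    obtain ⟨d₁, hd₁, hX⟩ := hX
    obtain ⟨d₂, hd₂, hZ⟩ := hZ
    obtain ⟨A, B, hA, hB, h'⟩ := swap_parts hQ hC hG (by omega) hX hZ h
    exact ⟨A, B, ⟨d₂, hd₂, hA⟩, ⟨d₁, hd₁, hB⟩, h'⟩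
  refine hC.generate (fun X => Star (Ext (Lo Chow t c)) (Ext (Hi Chow t c)) X) ?_
    (fun X Y Z f g h hT => hext X Y Z ⟨f, g, h, hT⟩) X
  intro P hP m
  obtain ⟨N, hN1, hN2⟩ := bounded_of_H hG.ht hG.he hG.hu hG.hid hG.hle hG.hge P
  have key : ∀ j : ℕ, Star (Ext (Lo Chow t c)) (Ext (Hi Chow t c))
      (((t.truncLT (-N + j)).obj P)⟦m⟧) := by
    intro j
    induction j with
    | zero =>
      apply star_zero
      have h1 : IsZero ((t.truncLT (-N + (0 : ℕ))).obj P) := by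
        have h2 : t.IsGE P (-N + ((0 : ℕ) : ℤ)) := by simpa using hN2
        exact t.isZero_truncLT_obj_of_isGE _ P
      exact isZero_shift h1 m
    | succ j ih =>
      have h1 := t.triangleLTLTGELT_distinguished (-N + j : ℤ) (-N + j + 1) (by omega) P
      have h2 : Tr ((t.truncLT (-N + j : ℤ)).obj P) ((t.truncLT (-N + j + 1 : ℤ)).obj P)
        ((pc t (-N + j)).obj P) := ⟨_, _, _, h1⟩
      rw [show (-N : ℤ) + ((j + 1 : ℕ) : ℤ) = -N + j + 1 by push_cast; ring]
      refine hext _ _ _ (h2.shift m) ih ?_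
      refine star_part c (d := -N + j - m) ⟨(pc_cn t _ P).shift m _ (by omega), -m, ?_⟩
      exact hC.iso (chow_pc hC hG hP (-N + j)) ((shiftEquiv C m).unitIso.app _)
  have h1 := key (2 * N + 1)
  have h2 : IsIso ((t.truncLTι (-N + ((2 * N + 1 : ℕ) : ℤ))).app P) :=
    (t.isLE_iff_isIso_truncLTι_app N _ (by push_cast; ring) P).1 hN1
  exact star_iso h1 ((shiftFunctor C m).mapIso (asIso ((t.truncLTι (-N + ((2 * N + 1 : ℕ) : ℤ))).app P)))

/-- If one realisation is t-exact, all are. -/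
theorem exact_all (hC : ChowMotives Chow T R) (hG : Good t (R l)) (l' : Λ) :
    TExact t (R l') := by
  constructor
  · intro X hX i hi
    obtain ⟨U, V, hU, hV, f, g, h, hT⟩ := star_all hQ hC hG 0 X
    have hX1 : t.IsLE X 0 := ⟨hX⟩
    have hU1 := ext_le hU
    have hV1 := ext_ge hV
    have hV2 : t.IsLE V 0 := isLE3 hT (t.isLE_of_le U 0 (0 + 1)) hX1
    have hV3 : IsZero V := t.isZero V 0 (0 + 1) (by omega)
    have := isIso1_of_isZero3 hT hV3
    exact (ext_vanish_le hC hG.he l' hU hi).of_iso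
      ((R l').H.mapIso ((shiftFunctor C i).mapIso (asIso f).symm))
  · intro X hX i hi
    obtain ⟨U, V, hU, hV, f, g, h, hT⟩ := star_all hQ hC hG (-1) X
    have hX1 : t.IsGE X 0 := ⟨hX⟩
    have hU1 := ext_le hU
    have hV1 := ext_ge hV
    have hU2 : t.IsGE U 0 := isGE1 hT hX1 (t.isGE_of_ge V (0 - 1) (-1 + 1))
    have hU3 : IsZero U := t.isZero U (-1) 0 (by omega)
    have := isIso2_of_isZero1 hT hU3
    exact (ext_vanish_ge hC hG.he l' hV (by omega)).of_iso
      ((R l').H.mapIso ((shiftFunctor C i).mapIso (asIso g)))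

end

end Pool.Agent.U735.IL
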