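import Pool.Agent.V1178.MT.Defs
import Pool.Agent.Y116.MT.Deg

/-!
# Chow motives in a category of constructible motives: definitions
-/

set_option autoImplicit false

open CategoryTheory Limits MonoidalCategory Pretriangulated Triangulated

namespace Pool.Agent.U735.IL

open Pool.Agent.Y116.MT Pool.Agent.V1178.MT

universe v u w

section

variable {C : Type u} [Category.{v} C] [MonoidalCategory C] [RightRigidCategory C]

/-- The class `Chow` contains the unit and is closed under direct summands, tensor products and
duals. -/
structure ChowClosed (Chow : ObjectProperty C) : Prop where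
  unit : Chow (𝟙_ C)
  summand (P Q : C) (i : P ⟶ Q) (r : Q ⟶ P) : i ≫ r = 𝟙 P → Chow Q → Chow P
  tensor (P Q : C) : Chow P → Chow Q → Chow (P ⊗ Q)
  dual (P : C) : Chow P → Chow (Pᘁ)

end

section

variable {C : Type u} [Category.{v} C] [Preadditive C] [HasZeroObject C] [HasShift C ℤ]
  [∀ n : ℤ, (shiftFunctor C n).Additive] [Pretriangulated C]

/-- The class `Chow` is closed under finite direct sums. -/
def ClosedUnderSums (Chow : ObjectProperty C) : Prop :=
  ∀ P Q : C, Chow P → Chow Q → Chow (P ⊞ Q)

/-- There are no positive extensions: `Hom(P, Q[m]) = 0` for `P`, `Q` in the class and `m > 0`. -/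
def NoPositiveExt (Chow : ObjectProperty C) : Prop :=
  ∀ P Q : C, Chow P → Chow Q → ∀ m : ℤ, 0 < m → ∀ f : P ⟶ Q⟦m⟧, f = 0

/-- Every object is an iterated extension of shifts of objects of the class: a class of objects
which contains all these shifts and is closed under extensions contains all objects. -/
def Generates (Chow : ObjectProperty C) : Prop :=
  ∀ D : ObjectProperty C, (∀ P : C, Chow P → ∀ m : ℤ, D (P⟦m⟧)) →
    (∀ (X Y Z : C) (f : X ⟶ Y) (g : Y ⟶ Z) (h : Z ⟶ X⟦(1 : ℤ)⟧),
      Triangle.mk f g h ∈ distTriang C → D X → D Z → D Y) → ∀ X : C, D X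

end

section

variable {C : Type u} [Category.{v} C] [Preadditive C] [HasZeroObject C] [HasShift C ℤ]
  [∀ n : ℤ, (shiftFunctor C n).Additive] [Pretriangulated C] [MonoidalCategory C]
  [SymmetricCategory C] [TensorTriangulated C]

/-- The Betti numbers of the objects of the class are independent of `l`. -/
def BettiIndependent (Chow : ObjectProperty C) {Λ : Type*} {E : Λ → Type w}
    [∀ l, Field (E l)] (R : ∀ l, Realisation C (E l)) : Prop :=
  ∀ P : C, Chow P → ∀ (i : ℤ) (l l' : Λ),
    Module.finrank (E l) ((R l).H.obj (P⟦i⟧)) = Module.finrank (E l') ((R l').H.obj (P⟦i⟧))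

/-- The trace of an endomorphism of a vector space. -/
noncomputable def trV {E : Type w} [Field E] {V : ModuleCat.{w} E} (a : V ⟶ V) : E :=
  LinearMap.trace E V a.hom

/-- The traces of endomorphisms on the cohomology are rational numbers independent of `l`. -/
def TracesIndependent {Λ : Type*} {E : Λ → Type w} [∀ l, Field (E l)]
    (R : ∀ l, Realisation C (E l)) : Prop :=
  ∀ (X : C) (f : X ⟶ X) (n : ℤ), ∃ c : ℚ, ∀ l, trV ((R l).H.map (f⟦n⟧')) = (c : E l)

/-- A morphism `L : Q ⟶ Q ⊗ T ^ k` which induces isomorphisms
`H^(e - k)(Q) ≅ H^(e - k)(Q ⊗ T ^ k)` for all `l`. -/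
def LefschetzMap (T Q : C) (e : ℤ) (k : ℕ) {Λ : Type*} {E : Λ → Type w}
    [∀ l, Field (E l)] (R : ∀ l, Realisation C (E l)) : Prop :=
  ∃ L : Q ⟶ twist T Q k, ∀ l, IsIso ((R l).H.map (L⟦e - k⟧'))

/-- The hard Lefschetz theorem, for the Lefschetz object `T` (the object `𝟙(1)[2]` in a category of
motives), which is invertible and whose cohomology is in degree `-2`: every Chow motive `P` is a
direct summand of a Chow motive `Q` (namely `M(X)(m)[2m]` for a smooth projective variety `X` of
pure dimension) with an integer `e` and morphisms `L : Q ⟶ Q ⊗ T ^ k`, for all `k`, which induce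
isomorphisms `H^(e - k)(Q) ≅ H^(e - k)(Q ⊗ T ^ k)`. -/
structure HardLef (Chow : ObjectProperty C) (T : C) {Λ : Type*} {E : Λ → Type w}
    [∀ l, Field (E l)] (R : ∀ l, Realisation C (E l)) : Prop where
  invertible : ∃ T' : C, Nonempty (T ⊗ T' ≅ 𝟙_ C)
  degree (l : Λ) : (R l).Deg T (-2)
  lefschetz (P : C) : Chow P → ∃ (Q : C) (i : P ⟶ Q) (r : Q ⟶ P) (e : ℤ),
    i ≫ r = 𝟙 P ∧ Chow Q ∧ ∀ k : ℕ, LefschetzMap T Q e k R

variable [RightRigidCategory C]

/-- The known properties of the full subcategory `Chow` of Chow motives (the direct summands of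
finite sums of the `M(X)(m)[2m]`, `X` smooth and projective over `k`) of the category of
constructible motives over a field `k`, where `T` is the Lefschetz object `𝟙(1)[2]` and the
`R l` are the `l`-adic realisations:

* it contains the unit and is closed under direct summands, sums, tensor products and duals;
* `Hom(P, Q[m]) = 0` for Chow motives `P`, `Q` and `m > 0`;
* every constructible motive is an iterated extension of shifts of Chow motives;
* the hard Lefschetz theorem;
* the Betti numbers of a Chow motive are independent of `l`. -/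
structure ChowMotives (Chow : ObjectProperty C) (T : C) {Λ : Type*} {E : Λ → Type w}
    [∀ l, Field (E l)] (R : ∀ l, Realisation C (E l)) : Prop extends ChowClosed Chow where
  sum : ClosedUnderSums Chow
  negative : NoPositiveExt Chow
  generate : Generates Chow
  lefschetz : HardLef Chow T R
  betti : BettiIndependent Chow R

end

end Pool.Agent.U735.IL
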