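import Pool.Agent.U735.IL.Main

/-!
# Independence of l: the final statements
-/

set_option autoImplicit false
set_option linter.unusedSectionVars false
set_option linter.unusedSimpArgs false
set_option backward.isDefEq.respectTransparency false
set_option backward.defeqAttrib.useBackward true

open CategoryTheory Limits MonoidalCategory Pretriangulated Triangulated ZeroObject

namespace Pool.Agent.U735.IL

open Pool.Agent.Y116.MT Pool.Agent.V1178.MT

universe v u w

section

variable {C : Type u} [Category.{v} C] [Preadditive C] [HasZeroObject C] [HasShift C ℤ]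
  [∀ n : ℤ, (shiftFunctor C n).Additive] [Pretriangulated C] [MonoidalCategory C]
  [SymmetricCategory C] [TensorTriangulated C] [MonoidalPreadditive C] [RightRigidCategory C]
  [IsTriangulated C]
  {Chow : ObjectProperty C} {T : C} {Λ : Type*} {E : Λ → Type w} [∀ l, Field (E l)]
  {R : ∀ l, Realisation C (E l)} {l : Λ} {t : TStructure C}

/-- A t-structure for which a conservative realisation is t-exact. -/
lemma good_of (hid : ∀ e : 𝟙_ C ⟶ 𝟙_ C, e ≫ e = e → e = 0 ∨ e = 𝟙 _)
    (hc : Conservative (R l)) (he : TExact t (R l)) : Good t (R l) := by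
  have hle : ∀ X : C, (∀ n : ℤ, t.le n X) → IsZero X := fun X hX =>
    hc X fun i => he.isLE (n := i - 1) ⟨hX _⟩ i (by omega)
  have hge : ∀ X : C, (∀ n : ℤ, t.ge n X) → IsZero X := fun X hX =>
    hc X fun i => he.isGE (n := i + 1) ⟨hX _⟩ i (by omega)
  have ht : TensorCompat t := by
    constructor
    · intro X Y hX hY
      exact (isLE_of hc he fun i hi => tensor_vanish_pos (he.le X hX) (he.le Y hY) hi).le
    · intro X Y hX hY
      exact (isGE_of hc he fun i hi => tensor_vanish_neg (he.ge X hX) (he.ge Y hY) hi).ge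
  exact ⟨ht, he, unit_hrt ht hle hge, hid, hle, hge⟩

lemma good_of_motivic (hid : ∀ e : 𝟙_ C ⟶ 𝟙_ C, e ≫ e = e → e = 0 ∨ e = 𝟙 _)
    (h : IsMotivic t R) (l : Λ) : Good t (R l) :=
  have ht : TensorCompat t := ⟨h.tensor_le, h.tensor_ge⟩
  ⟨ht, ⟨h.exact_le l, h.exact_ge l⟩, unit_hrt ht h.nondeg_le h.nondeg_ge, hid, h.nondeg_le,
    h.nondeg_ge⟩

lemma Good.eq_iff {t' : TStructure C} {l' : Λ} (hG : Good t (R l)) (he' : TExact t' (R l'))
    (hc' : Conservative (R l')) (he : TExact t (R l')) (X : C) (n : ℤ) :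
    (t.le n X ↔ t'.le n X) ∧ (t.ge n X ↔ t'.ge n X) := by
  refine ⟨⟨fun hX => ?_, fun hX => ?_⟩, ⟨fun hX => ?_, fun hX => ?_⟩⟩
  · exact (isLE_of hc' he' fun i hi => he.isLE ⟨hX⟩ i hi).le
  · exact (isLE_of hc' he fun i hi => he'.isLE ⟨hX⟩ i hi).le
  · exact (isGE_of hc' he' fun i hi => he.isGE ⟨hX⟩ i hi).ge
  · exact (isGE_of hc' he fun i hi => he'.isGE ⟨hX⟩ i hi).ge

omit [MonoidalPreadditive C] [RightRigidCategory C] [IsTriangulated C] in
lemma trace_conj_iso {E : Type w} [Field E] {V W : ModuleCat.{w} E} (φ : V ⟶ W) [IsIso φ]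
    (a : V ⟶ V) (b : W ⟶ W) (h : a ≫ φ = φ ≫ b) :
    LinearMap.trace E V a.hom = LinearMap.trace E W b.hom := by
  have h1 : b = inv φ ≫ a ≫ φ := by rw [h, IsIso.inv_hom_id_assoc]
  have h2 : b.hom = (asIso φ).toLinearEquiv.conj a.hom := by
    rw [h1]
    ext x
    rfl
  rw [h2, LinearMap.trace_conj']

/-- The trace on the `n`-th cohomology only depends on the `n`-th part. -/
lemma trace_pc (he : TExact t (R l)) {X : C} (f : X ⟶ X) (n : ℤ) :
    LinearMap.trace (E l) ((R l).H.obj (X⟦n⟧)) ((R l).H.map (f⟦n⟧')).hom =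
      LinearMap.trace (E l) ((R l).H.obj (((pc t n).obj X)⟦n⟧))
        ((R l).H.map (((pc t n).map f)⟦n⟧')).hom := by
  have h1 := t.triangleLTGE_distinguished (n + 1) X
  have h2 := t.triangleLTGE_distinguished n ((t.truncLT (n + 1)).obj X)
  have h3 : t.IsGE ((t.truncGE (n + 1)).obj X) (n + 1) := inferInstance
  have h4 : t.IsLE ((t.truncLT n).obj ((t.truncLT (n + 1)).obj X)) (n - 1) := inferInstance
  have v1 : VIso (R l) n ((t.truncLTι (n + 1)).app X) :=
    VIso.of₃ h1 (he.isGE h3 _ (by omega)) (he.isGE h3 _ (by omega))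
  have v2 : VIso (R l) n ((t.truncGEπ n).app ((t.truncLT (n + 1)).obj X)) :=
    VIso.of₁ h2 (he.isLE h4 _ (by omega)) (he.isLE h4 _ (by omega))
  unfold VIso at v1 v2
  have e1 : LinearMap.trace (E l) ((R l).H.obj (((t.truncLT (n + 1)).obj X)⟦n⟧))
      ((R l).H.map (((t.truncLT (n + 1)).map f)⟦n⟧')).hom =
      LinearMap.trace (E l) ((R l).H.obj (X⟦n⟧)) ((R l).H.map (f⟦n⟧')).hom := by
    refine trace_conj_iso ((R l).H.map (((t.truncLTι (n + 1)).app X)⟦n⟧')) _ _ ?_
    rw [← Functor.map_comp, ← Functor.map_comp, ← Functor.map_comp, ← Functor.map_comp,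
      NatTrans.naturality]
    rfl
  have e2 : LinearMap.trace (E l) ((R l).H.obj (((t.truncLT (n + 1)).obj X)⟦n⟧))
      ((R l).H.map (((t.truncLT (n + 1)).map f)⟦n⟧')).hom =
      LinearMap.trace (E l) ((R l).H.obj (((pc t n).obj X)⟦n⟧))
        ((R l).H.map (((pc t n).map f)⟦n⟧')).hom := by
    refine trace_conj_iso
      ((R l).H.map (((t.truncGEπ n).app ((t.truncLT (n + 1)).obj X))⟦n⟧')) _ _ ?_
    rw [← Functor.map_comp, ← Functor.map_comp]
    rw [← Functor.map_comp, ← Functor.map_comp]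
    congr 2
    exact (t.truncGEπ n).naturality ((t.truncLT (n + 1)).map f)
  rw [← e1, e2]

variable [Linear ℚ C] (hQ : ∀ e : 𝟙_ C ⟶ 𝟙_ C, ∃ q : ℚ, e = q • 𝟙 (𝟙_ C))

include hQ

/-- The traces are rational and independent of `l`. -/
theorem trace_indep (he : ∀ l, TExact t (R l)) {X : C} (f : X ⟶ X) (n : ℤ) :
    ∃ c : ℚ, ∀ l, LinearMap.trace (E l) ((R l).H.obj (X⟦n⟧)) ((R l).H.map (f⟦n⟧')).hom =
      (c : E l) := by
  refine ⟨num hQ (tr (((pc t n).map f)⟦n⟧')), fun l => ?_⟩
  obtain ⟨_⟩ := ratAlgebra (R l)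
  have h1 : Cn t 0 (((pc t n).obj X)⟦n⟧) := (pc_cn t n X).shift n 0 (by omega)
  rw [trace_pc (he l), trace_eq hQ (R l) ((he l).deg ⟨h1.1, h1.2⟩), eq_ratCast]

/-- The Betti numbers are independent of `l`. -/
theorem betti_indep (he : ∀ l, TExact t (R l)) (X : C) (n : ℤ) (l l' : Λ) :
    Module.finrank (E l) ((R l).H.obj (X⟦n⟧)) = Module.finrank (E l') ((R l').H.obj (X⟦n⟧)) := by
  obtain ⟨c, hc⟩ := trace_indep hQ he (𝟙 X) n
  have key : ∀ l, (Module.finrank (E l) ((R l).H.obj (X⟦n⟧)) : ℚ) = c := by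
    intro l
    obtain ⟨_⟩ := ratAlgebra (R l)
    have h0 : CharZero (E l) := algebraRat.charZero (E l)
    have h1 := hc l
    rw [CategoryTheory.Functor.map_id, CategoryTheory.Functor.map_id, ModuleCat.hom_id,
      LinearMap.trace_id] at h1
    exact_mod_cast h1
  have := (key l).trans (key l').symm
  exact_mod_cast this

/-- A t-structure is motivic as soon as one conservative realisation is t-exact. -/
theorem motivic_of_one (hC : ChowMotives Chow T R) (hc : Conservative (R l))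
    (he : TExact t (R l)) : IsMotivic t R := by
  have hG := good_of (unit_idem hQ) hc he
  exact ⟨hG.hle, hG.hge, hG.ht.le, hG.ht.ge, fun l' => (exact_all hQ hC hG l').le,
    fun l' => (exact_all hQ hC hG l').ge⟩

/-- Uniqueness, for all `l` simultaneously. -/
theorem eq_of_exact (hC : ChowMotives Chow T R) {t' : TStructure C} {l' : Λ}
    (hc : Conservative (R l)) (he : TExact t (R l)) (hc' : Conservative (R l'))
    (he' : TExact t' (R l')) (X : C) (n : ℤ) :
    (t.le n X ↔ t'.le n X) ∧ (t.ge n X ↔ t'.ge n X) := by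
  have hG := good_of (unit_idem hQ) hc he
  exact hG.eq_iff he' hc' (exact_all hQ hC hG l') X n

end

end Pool.Agent.U735.IL
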