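import Pool.Agent.U735.IL.Van

/-!
# The decomposition of Deligne from the hard Lefschetz theorem
-/

set_option autoImplicit false
set_option linter.unusedSectionVars false
set_option linter.unusedSimpArgs false
set_option backward.isDefEq.respectTransparency false
set_option backward.defeqAttrib.useBackward true

open CategoryTheory Limits MonoidalCategory Pretriangulated Triangulated

namespace Pool.Agent.U735.IL

open Pool.Agent.Y116.MT Pool.Agent.V1178.MT

universe v u w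

section

variable {C : Type u} [Category.{v} C] [Preadditive C] [HasZeroObject C] [HasShift C ℤ]
  [∀ n : ℤ, (shiftFunctor C n).Additive] [Pretriangulated C] [MonoidalCategory C]
  [SymmetricCategory C] [TensorTriangulated C] [MonoidalPreadditive C] [RightRigidCategory C]
  {E : Type w} [Field E] {R : Realisation C E} {t : TStructure C}

/-- The morphism `f` induces an isomorphism in the degree `n` of the realisation. -/
def VIso (R : Realisation C E) (n : ℤ) {X Y : C} (f : X ⟶ Y) : Prop := IsIso (R.H.map (f⟦n⟧'))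

lemma VIso.comp {n : ℤ} {X Y Z : C} {f : X ⟶ Y} {g : Y ⟶ Z} (hf : VIso R n f)
    (hg : VIso R n g) : VIso R n (f ≫ g) := by
  unfold VIso at *
  rw [Functor.map_comp, Functor.map_comp]
  infer_instance

lemma VIso.of_left {n : ℤ} {X Y : C} {f : X ⟶ Y} {g : Y ⟶ X} (h : f ≫ g = 𝟙 _)
    (hf : VIso R n f) : VIso R n g := by
  unfold VIso at *
  have h1 : R.H.map (f⟦n⟧') ≫ R.H.map (g⟦n⟧') = 𝟙 _ := by
    rw [← Functor.map_comp, ← Functor.map_comp, h, CategoryTheory.Functor.map_id,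
      CategoryTheory.Functor.map_id]
  have h2 : R.H.map (g⟦n⟧') = inv (R.H.map (f⟦n⟧')) := by
    rw [← cancel_epi (R.H.map (f⟦n⟧')), h1, IsIso.hom_inv_id]
  rw [h2]
  infer_instance

lemma VIso.of_right {n : ℤ} {X Y : C} {f : X ⟶ Y} {g : Y ⟶ X} (h : f ≫ g = 𝟙 _)
    (hg : VIso R n g) : VIso R n f := by
  unfold VIso at *
  have h1 : R.H.map (f⟦n⟧') ≫ R.H.map (g⟦n⟧') = 𝟙 _ := by
    rw [← Functor.map_comp, ← Functor.map_comp, h, CategoryTheory.Functor.map_id,
      CategoryTheory.Functor.map_id]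
  have h2 : R.H.map (f⟦n⟧') = inv (R.H.map (g⟦n⟧')) := by
    rw [← cancel_mono (R.H.map (g⟦n⟧')), h1, IsIso.inv_hom_id]
  rw [h2]
  infer_instance

lemma VIso.of₃ {n : ℤ} {X Y Z : C} {f : X ⟶ Y} {g : Y ⟶ Z} {h : Z ⟶ X⟦(1 : ℤ)⟧}
    (hT : Triangle.mk f g h ∈ distTriang C) (h1 : IsZero (R.H.obj (Z⟦n - 1⟧)))
    (h2 : IsZero (R.H.obj (Z⟦n⟧))) : VIso R n f := by
  have := hmono1 R.H hT n h1
  have := hepi1 R.H hT n h2
  exact isIso_of_mono_of_epi _

lemma VIso.of₁ {n : ℤ} {X Y Z : C} {f : X ⟶ Y} {g : Y ⟶ Z} {h : Z ⟶ X⟦(1 : ℤ)⟧}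
    (hT : Triangle.mk f g h ∈ distTriang C) (h1 : IsZero (R.H.obj (X⟦n⟧)))
    (h2 : IsZero (R.H.obj (X⟦n + 1⟧))) : VIso R n g := by
  have := hmono2 R.H hT n h1
  have := hepi2 R.H hT n h2
  exact isIso_of_mono_of_epi _

lemma Cn.vzero (he : TExact t R) {d : ℤ} {X : C} (h : Cn t d X) {n : ℤ} (hn : n ≠ d) :
    IsZero (R.H.obj (X⟦n⟧)) := by
  rcases lt_or_gt_of_ne hn with h1 | h1
  · exact he.isGE h.2 n h1
  · exact he.isLE h.1 n h1

/-- A morphism between objects in the same degree which induces an isomorphism on the realisation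
is an isomorphism. -/
lemma isIso_of_vIso (hc : Conservative R) (he : TExact t R) {a : ℤ} {A B : C}
    (hA : Cn t a A) (hB : Cn t a B) {f : A ⟶ B} (hf : VIso R a f) : IsIso f := by
  let _ := Functor.ShiftSequence.tautological R.H ℤ
  have h1 : R.H.homologicalKernel.trW f := by
    rw [R.H.mem_homologicalKernel_trW_iff f]
    intro n
    by_cases hn : n = a
    · subst hn
      exact hf
    · have hz1 : IsZero ((R.H.shift n).obj A) := hA.vzero he hn
      have hz2 : IsZero ((R.H.shift n).obj B) := hB.vzero he hn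
      exact ⟨0, hz1.eq_of_src _ _, hz2.eq_of_src _ _⟩
  obtain ⟨Z, g, h, hT⟩ := distinguished_cocone_triangle f
  have h2 := (R.H.homologicalKernel.trW_iff_of_distinguished _ hT).1 h1
  exact isIso1_of_isZero3 hT (hc Z h2)

/-- A triangle tensored with an object on the right. -/
lemma tensor_dist' (W : C) {X Y Z : C} {f : X ⟶ Y} {g : Y ⟶ Z} {h : Z ⟶ X⟦(1 : ℤ)⟧}
    (hT : Triangle.mk f g h ∈ distTriang C) :
    ∃ h', Triangle.mk (f ▷ W) (g ▷ W) h' ∈ distTriang C := by
  refine ⟨(β_ Z W).hom ≫ (W ◁ h ≫ (rShift W X 1).hom) ≫ (β_ X W).inv⟦1⟧', ?_⟩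
  refine isomorphic_distinguished _ (tensor_dist W hT) _ ?_
  refine Triangle.isoMk _ _ (β_ X W) (β_ Y W) (β_ Z W) (by simp) (by simp) ?_
  simp only [Triangle.mk_mor₃, Category.assoc, Triangle.mk_obj₁, ← Functor.map_comp,
    Iso.inv_hom_id, CategoryTheory.Functor.map_id, Category.comp_id]

/-- The functoriality of the twist. -/
def twMap (T : C) {X Y : C} (f : X ⟶ Y) : ∀ k : ℕ, twist T X k ⟶ twist T Y k
  | 0 => f
  | k + 1 => twMap T f k ▷ T

lemma twMap_id (T X : C) (k : ℕ) : twMap T (𝟙 X) k = 𝟙 _ := by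
  induction k with
  | zero => rfl
  | succ k ih =>
    simp only [twMap, ih, id_whiskerRight]
    rfl

lemma twMap_comp (T : C) {X Y Z : C} (f : X ⟶ Y) (g : Y ⟶ Z) (k : ℕ) :
    twMap T (f ≫ g) k = twMap T f k ≫ twMap T g k := by
  induction k with
  | zero => rfl
  | succ k ih =>
    simp only [twMap, ih, comp_whiskerRight]

lemma twMap_dist (T : C) {X Y Z : C} {f : X ⟶ Y} {g : Y ⟶ Z} {h : Z ⟶ X⟦(1 : ℤ)⟧}
    (hT : Triangle.mk f g h ∈ distTriang C) (k : ℕ) :
    ∃ h', Triangle.mk (twMap T f k) (twMap T g k) h' ∈ distTriang C := by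
  induction k with
  | zero => exact ⟨h, hT⟩
  | succ k ih =>
    obtain ⟨h', hk⟩ := ih
    exact tensor_dist' T hk

lemma twMap_bij {T T' : C} (e : T ⊗ T' ≅ 𝟙_ C) (X Y : C) (k : ℕ) :
    Function.Bijective (fun f : X ⟶ Y => twMap T f k) := by
  induction k with
  | zero => exact Function.bijective_id
  | succ k ih =>
    have h1 := tensor_full e
    have h2 := tensor_faithful e
    have h3 : Function.Bijective (fun f : twist T X k ⟶ twist T Y k => (tensorRight T).map f) :=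
      ⟨(tensorRight T).map_injective, (tensorRight T).map_surjective⟩
    exact h3.comp ih

lemma twist_le (ht : TensorCompat t) {T : C} (hT : Cn t (-2) T) {X : C} {a : ℤ}
    (hX : t.IsLE X a) (k : ℕ) (b : ℤ) (hb : b = a - 2 * k) : t.IsLE (twist T X k) b := by
  subst hb
  induction k with
  | zero =>
    rw [show a - 2 * ((0 : ℕ) : ℤ) = a by simp]
    exact hX
  | succ k ih =>
    have h1 := ht.isLE ih hT.1
    rwa [show a - 2 * (k : ℤ) + -2 = a - 2 * ((k + 1 : ℕ) : ℤ) by push_cast; ring] at h1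

lemma twist_ge (ht : TensorCompat t) {T : C} (hT : Cn t (-2) T) {X : C} {a : ℤ}
    (hX : t.IsGE X a) (k : ℕ) (b : ℤ) (hb : b = a - 2 * k) : t.IsGE (twist T X k) b := by
  subst hb
  induction k with
  | zero =>
    rw [show a - 2 * ((0 : ℕ) : ℤ) = a by simp]
    exact hX
  | succ k ih =>
    have h1 := ht.isGE ih hT.2
    rwa [show a - 2 * (k : ℤ) + -2 = a - 2 * ((k + 1 : ℕ) : ℤ) by push_cast; ring] at h1

/-- The `n`-th cohomology object for the t-structure, placed in degree `n`. -/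
noncomputable abbrev pc (t : TStructure C) (n : ℤ) : C ⥤ C := t.truncGELT n (n + 1)

lemma pc_cn [IsTriangulated C] (t : TStructure C) (n : ℤ) (X : C) : Cn t n ((pc t n).obj X) := by
  constructor
  · have h : t.IsLE ((t.truncLT (n + 1)).obj X) n := inferInstance
    exact inferInstanceAs (t.IsLE ((t.truncGE n).obj ((t.truncLT (n + 1)).obj X)) n)
  · exact inferInstanceAs (t.IsGE ((t.truncGE n).obj ((t.truncLT (n + 1)).obj X)) n)

/-- All `H^n(Q)[-n]` are direct summands of `Q`. -/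
def Sp (t : TStructure C) (Q : C) : Prop :=
  ∀ n : ℤ, ∃ (i : (pc t n).obj Q ⟶ Q) (r : Q ⟶ (pc t n).obj Q), i ≫ r = 𝟙 _

lemma Sp.iso {P Q : C} (h : Sp t P) (e : P ≅ Q) : Sp t Q := by
  intro n
  obtain ⟨i, r, hir⟩ := h n
  refine ⟨(pc t n).map e.inv ≫ i ≫ e.hom, e.inv ≫ r ≫ (pc t n).map e.hom, ?_⟩
  simp only [Category.assoc, Iso.hom_inv_id_assoc, reassoc_of% hir]
  rw [← Functor.map_comp, Iso.inv_hom_id, CategoryTheory.Functor.map_id]

lemma Sp.biprod {P Q : C} (hP : Sp t P) (hQ : Sp t Q) : Sp t (P ⊞ Q) := by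
  intro n
  obtain ⟨i, r, hir⟩ := hP n
  obtain ⟨j, s, hjs⟩ := hQ n
  refine ⟨(pc t n).map biprod.fst ≫ i ≫ biprod.inl + (pc t n).map biprod.snd ≫ j ≫ biprod.inr,
    biprod.fst ≫ r ≫ (pc t n).map biprod.inl + biprod.snd ≫ s ≫ (pc t n).map biprod.inr, ?_⟩
  simp only [Preadditive.add_comp, Preadditive.comp_add, Category.assoc,
    BinaryBicone.inl_fst_assoc, BinaryBicone.inr_snd_assoc, BinaryBicone.inl_snd_assoc,
    BinaryBicone.inr_fst_assoc, zero_comp, comp_zero, add_zero, zero_add, reassoc_of% hir,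
    reassoc_of% hjs]
  rw [← Functor.map_comp, ← Functor.map_comp, ← Functor.map_add, biprod.total,
    CategoryTheory.Functor.map_id]

lemma Sp.ext {X Y Z : C} {f : X ⟶ Y} {g : Y ⟶ Z} {h : Z ⟶ X⟦(1 : ℤ)⟧}
    (hT : Triangle.mk f g h ∈ distTriang C) (h0 : h = 0) (hX : Sp t X) (hZ : Sp t Z) :
    Sp t Y := by
  obtain ⟨e, -, -⟩ := exists_iso_binaryBiproduct_of_distTriang _ hT h0
  exact (Sp.biprod hX hZ).iso e.symm

lemma Sp.of_cn [IsTriangulated C] {d : ℤ} {X : C} (h : Cn t d X) : Sp t X := by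
  have hLE : t.IsLE X d := h.1
  have hGE : t.IsGE X d := h.2
  intro n
  by_cases hn : n = d
  · subst hn
    have h1 : IsIso ((t.truncLTι (n + 1)).app X) :=
      (t.isLE_iff_isIso_truncLTι_app n (n + 1) rfl X).1 hLE
    have h2 : Cn t n ((t.truncLT (n + 1)).obj X) := h.iso (asIso ((t.truncLTι (n + 1)).app X)).symm
    have h3 : IsIso ((t.truncGEπ n).app ((t.truncLT (n + 1)).obj X)) :=
      (t.isGE_iff_isIso_truncGEπ_app n _).1 h2.2
    refine ⟨inv ((t.truncGEπ n).app ((t.truncLT (n + 1)).obj X)) ≫ (t.truncLTι (n + 1)).app X,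
      inv ((t.truncLTι (n + 1)).app X) ≫ (t.truncGEπ n).app ((t.truncLT (n + 1)).obj X), ?_⟩
    simp
  · have h1 : IsZero ((pc t n).obj X) := by
      have h2 := pc_cn t n X
      have h3 : t.IsLE ((pc t n).obj X) d :=
        inferInstanceAs (t.IsLE ((t.truncGE n).obj ((t.truncLT (n + 1)).obj X)) d)
      have h4 : t.IsGE ((t.truncLT (n + 1)).obj X) d := by
        have : t.IsGE ((t.truncLE n).obj X) d := inferInstance
        exact this
      rcases lt_or_gt_of_ne hn with h5 | h5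
      · have h7 : t.IsGE X (n + 1) := t.isGE_of_ge X (n + 1) d (by omega)
        have h6 : IsZero ((t.truncLT (n + 1)).obj X) := t.isZero_truncLT_obj_of_isGE (n + 1) X
        exact (t.truncGE n).map_isZero h6
      · exact @TStructure.isZero _ _ _ _ _ _ _ t _ d n h5 h3 h2.2
    exact ⟨0, 0, h1.eq_of_src _ _⟩

end

end Pool.Agent.U735.IL
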