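import Pool.Agent.U735.IL.Lef

/-!
# The splitting of Chow motives for the t-structure
-/

set_option autoImplicit false
set_option linter.unusedSectionVars false
set_option linter.unusedSimpArgs false
set_option backward.isDefEq.respectTransparency false
set_option backward.defeqAttrib.useBackward true

open CategoryTheory Limits MonoidalCategory Pretriangulated Triangulated

namespace Pool.Agent.U735.IL

open Pool.Agent.Y116.MT Pool.Agent.V1178.MT

universe v u w

section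

variable {C : Type u} [Category.{v} C] [Preadditive C] [HasZeroObject C] [HasShift C ℤ]
  [∀ n : ℤ, (shiftFunctor C n).Additive] [Pretriangulated C] [MonoidalCategory C]
  [SymmetricCategory C] [TensorTriangulated C] [MonoidalPreadditive C] [RightRigidCategory C]
  [IsTriangulated C] {E : Type w} [Field E] {R : Realisation C E} {t : TStructure C}

/-- Deligne's decomposition. -/
theorem sp_of_lefschetz (ht : TensorCompat t) (hc : Conservative R) (he : TExact t R) {T T' : C}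
    (eT : T ⊗ T' ≅ 𝟙_ C) (hT : Cn t (-2) T) (m : ℕ) :
    ∀ (Q : C) (e : ℤ), t.IsGE Q (e - m) → t.IsLE Q (e + m) →
      (∀ k : ℕ, k ≤ m → ∃ L : Q ⟶ twist T Q k, VIso R (e - k) L) → Sp t Q := by
  induction m with
  | zero =>
    intro Q e h1 h2 _
    refine Sp.of_cn (d := e) ⟨?_, ?_⟩
    · simpa using h2
    · simpa using h1
  | succ m ih =>
    intro Q e hge hle hL
    obtain ⟨a, ha⟩ : ∃ a : ℤ, a = e - ((m + 1 : ℕ) : ℤ) := ⟨_, rfl⟩
    obtain ⟨b, hb⟩ : ∃ b : ℤ, b = e + ((m + 1 : ℕ) : ℤ) := ⟨_, rfl⟩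
    rw [← ha] at hge
    rw [← hb] at hle
    push_cast at ha hb
    -- the lowest part
    obtain ⟨A, Q1, hA, hQ1, ι, g, δ, hT1⟩ := t.exists_triangle Q a (a + 1) rfl
    have hA1 : t.IsLE A a := ⟨hA⟩
    have hQ1g : t.IsGE Q1 (a + 1) := ⟨hQ1⟩
    have hA2 : t.IsGE A a := isGE1 hT1 hge (t.isGE_of_ge Q1 (a - 1) (a + 1))
    have hAc : Cn t a A := ⟨hA1, hA2⟩
    -- the highest part
    obtain ⟨Q0, B, hQ0, hB, ι', π, δ', hT2⟩ := t.exists_triangle Q (b - 1) b (by omega)
    have hQ0l : t.IsLE Q0 (b - 1) := ⟨hQ0⟩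
    have hB1 : t.IsGE B b := ⟨hB⟩
    have hB2 : t.IsLE B b := isLE3 hT2 (t.isLE_of_le Q0 (b - 1) (b + 1)) hle
    have hBc : Cn t b B := ⟨hB2, hB1⟩
    -- the Lefschetz operator
    obtain ⟨L, hLi⟩ := hL (m + 1) le_rfl
    obtain ⟨δ'', hT3⟩ := twMap_dist T hT2 (m + 1)
    have hBt : Cn t a (twist T B (m + 1)) :=
      ⟨twist_le ht hT hB2 (m + 1) a (by push_cast; omega),
        twist_ge ht hT hB1 (m + 1) a (by push_cast; omega)⟩
    have hQ0t : t.IsLE (twist T Q0 (m + 1)) (a - 1) :=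
      twist_le ht hT hQ0l (m + 1) (a - 1) (by push_cast; omega)
    have v1 : VIso R a ι := VIso.of₃ hT1 (he.isGE hQ1g _ (by omega)) (he.isGE hQ1g _ (by omega))
    have v2 : VIso R a L := by
      rw [show a = e - ((m + 1 : ℕ) : ℤ) by push_cast; omega]
      exact hLi
    have v3 : VIso R a (twMap T π (m + 1)) :=
      VIso.of₁ hT3 (he.isLE hQ0t _ (by omega)) (he.isLE hQ0t _ (by omega))
    obtain ⟨c, hc'⟩ : ∃ c, c = ι ≫ L ≫ twMap T π (m + 1) := ⟨_, rfl⟩
    have hci : IsIso c := isIso_of_vIso hc he hAc hBt (hc' ▸ v1.comp (v2.comp v3))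
    -- the lowest part is a direct summand
    have hret : ι ≫ (L ≫ twMap T π (m + 1) ≫ inv c) = 𝟙 A := by
      have h1 : (ι ≫ L ≫ twMap T π (m + 1)) ≫ inv c = 𝟙 A := by
        rw [← hc', IsIso.hom_inv_id]
      simpa only [Category.assoc] using h1
    have hδ : δ = 0 := by
      have h1 := comp31 hT1
      have h2 : δ ≫ (ι ≫ (L ≫ twMap T π (m + 1) ≫ inv c))⟦(1 : ℤ)⟧' = 0 := by
        rw [Functor.map_comp, reassoc_of% h1, zero_comp]
      rwa [hret, CategoryTheory.Functor.map_id, Category.comp_id] at h2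
    obtain ⟨σ, hσ⟩ := split3' hT1 hδ
    -- the highest part is a direct summand
    obtain ⟨s, hs⟩ := (twMap_bij eT B Q (m + 1)).2 (inv c ≫ ι ≫ L)
    have hsec : s ≫ π = 𝟙 B := by
      apply (twMap_bij eT B B (m + 1)).1
      have h1 : twMap T s (m + 1) = inv c ≫ ι ≫ L := hs
      change twMap T (s ≫ π) (m + 1) = twMap T (𝟙 B) (m + 1)
      rw [twMap_comp, twMap_id, h1, Category.assoc, Category.assoc, ← hc', IsIso.inv_hom_id]
    obtain ⟨π₁, hπ₁⟩ := ye2 hT1 π (t.zero_of_isLE_of_isGE _ a b (by omega) hA1 hB1)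
    have hsec1 : (s ≫ g) ≫ π₁ = 𝟙 B := by rw [Category.assoc, ← hπ₁, hsec]
    obtain ⟨Q2, κ, θ, hT4⟩ := distinguished_cocone_triangle₁ π₁
    have hθ : θ = 0 := by
      have h1 : π₁ ≫ θ = 0 := comp23 hT4
      calc θ = ((s ≫ g) ≫ π₁) ≫ θ := by rw [hsec1, Category.id_comp]
        _ = 0 := by rw [Category.assoc, h1, comp_zero]
    obtain ⟨ρ, hρ⟩ := split3 hT4 hθ
    -- the degrees of the middle part
    have hQ2g : t.IsGE Q2 (a + 1) := isGE1 hT4 hQ1g (t.isGE_of_ge B (a + 1 - 1) b)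
    have hQ2l : t.IsLE Q2 (b - 1) := by
      have O := someOctahedron' hπ₁.symm hT1 hT4 hT2
      exact isLE3 O.mem (t.isLE_of_le A a (b - 1 + 1)) hQ0l
    have hQ2 : Sp t Q2 := by
      refine ih Q2 e ?_ ?_ ?_
      · rwa [show e - (m : ℤ) = a + 1 by omega]
      · rwa [show e + (m : ℤ) = b - 1 by omega]
      · intro k hk
        obtain ⟨Lk, hLk⟩ := hL k (by omega)
        have hk' : (k : ℤ) ≤ m := by exact_mod_cast hk
        obtain ⟨_, hT5⟩ := twMap_dist T hT1 k
        obtain ⟨_, hT6⟩ := twMap_dist T hT4 k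
        have hAt : t.IsLE (twist T A k) (a - 2 * k) := twist_le ht hT hA1 k _ rfl
        have hBt' : t.IsGE (twist T B k) (b - 2 * k) := twist_ge ht hT hB1 k _ rfl
        refine ⟨κ ≫ σ ≫ Lk ≫ twMap T g k ≫ twMap T ρ k, ?_⟩
        have w1 : VIso R (e - k) κ :=
          VIso.of₃ hT4 (he.isGE hB1 _ (by omega)) (he.isGE hB1 _ (by omega))
        have w2 : VIso R (e - k) g :=
          VIso.of₁ hT1 (he.isLE hA1 _ (by omega)) (he.isLE hA1 _ (by omega))
        have w3 : VIso R (e - k) σ := w2.of_right hσ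
        have w4 : VIso R (e - k) (twMap T g k) :=
          VIso.of₁ hT5 (he.isLE hAt _ (by omega)) (he.isLE hAt _ (by omega))
        have w5 : VIso R (e - k) (twMap T κ k) :=
          VIso.of₃ hT6 (he.isGE hBt' _ (by omega)) (he.isGE hBt' _ (by omega))
        have w6 : VIso R (e - k) (twMap T ρ k) := by
          refine w5.of_left ?_
          rw [← twMap_comp, hρ, twMap_id]
        exact w1.comp (w3.comp (hLk.comp (w4.comp w6)))
    have hQ1 : Sp t Q1 := Sp.ext hT4 hθ hQ2 (Sp.of_cn hBc)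
    exact Sp.ext hT1 hδ (Sp.of_cn hAc) hQ1

end

end Pool.Agent.U735.IL
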